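import Mathlib

namespace Pool.Agent.WM85

open Polynomial

variable {K V : Type*} [Field K] [AddCommGroup V] [Module K V] [FiniteDimensional K V]

/-- The characteristic polynomial of `F` on the `F`-stable subspace `S` (`1` if `S` is not
`F`-stable). -/
noncomputable def charOn (F : V →ₗ[K] V) (S : Submodule K V) : K[X] :=
  open Classical in
  if h : S ≤ S.comap F then (F.restrict h).charpoly else 1

/-- The algebraic multiplicity of `α` as an eigenvalue of `F` on the `F`-stable subspace `S`. -/
noncomputable def mult (F : V →ₗ[K] V) (S : Submodule K V) (α : AlgebraicClosure K) : ℕ :=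
  ((charOn F S).map (algebraMap K (AlgebraicClosure K))).rootMultiplicity α

/-- `|coeff_j G| ≤ |p ^ f| ^ (deg G - j - t)` for all `j`: the Newton polygon of the monic polynomial
`G` (with `v (p ^ f) = 1`) lies above the polygon with `t` slopes `0` and all other slopes `1`. -/
def NewtonAbove {K : Type*} [NormedField K] (p f t : ℕ) (G : K[X]) : Prop :=
  ∀ j, ‖G.coeff j‖ * ‖(p : K)‖ ^ (f * (j + t)) ≤ ‖(p : K)‖ ^ (f * G.natDegree)

end Pool.Agent.WM85
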