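import Pool.Agent.LibWM85.Split

namespace Pool.Agent.WM85

open Polynomial

/-- Newton above Hodge gives a bound for the defect of the part of slope `< 1`. -/
theorem delta_le_of_coeff {K : Type*} [NormedField K] [IsUltrametricDist K] {ord : K → ℤ} {ρ : ℝ}
    (hρ0 : 0 < ρ) (hρ1 : ρ < 1) (hord : ∀ x, x ≠ 0 → ‖x‖ = ρ ^ ord x) (f t : ℕ) (A B : K[X])
    (hA : A.Monic) (hB : B.Monic) (hB0 : B.coeff 0 ≠ 0)
    (h : ∀ j, ‖(A * B).coeff j‖ * ρ ^ (f * (j + t)) ≤ ρ ^ (f * (A * B).natDegree)) :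
    delta ord f B ≤ f * t := by
  have hc0 : 0 < ρ ^ f := pow_pos hρ0 f
  have hna : IsNonarchimedean (NormedField.toAbsoluteValue K) := fun x y =>
    IsUltrametricDist.norm_add_le_max x y
  have hmul := gaussNorm_mul (v := NormedField.toAbsoluteValue K) hna hc0 A B
  obtain ⟨i, hi⟩ := (A * B).exists_eq_gaussNorm (NormedField.toAbsoluteValue K) (ρ ^ f)
  have hA1 := A.le_gaussNorm (NormedField.toAbsoluteValue K) hc0.le A.natDegree
  have hB1 := B.le_gaussNorm (NormedField.toAbsoluteValue K) hc0.le 0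
  have hAv : (NormedField.toAbsoluteValue K) (A.coeff A.natDegree) = 1 := by
    rw [hA.coeff_natDegree, map_one]
  rw [hAv, one_mul] at hA1
  rw [pow_zero, mul_one] at hB1
  have hBv : (NormedField.toAbsoluteValue K) (B.coeff 0) = ‖B.coeff 0‖ := rfl
  have hABv : (NormedField.toAbsoluteValue K) ((A * B).coeff i) = ‖(A * B).coeff i‖ := rfl
  rw [hBv] at hB1
  rw [hABv] at hi
  have h1 : (ρ ^ f) ^ A.natDegree * ‖B.coeff 0‖ ≤ ‖(A * B).coeff i‖ * (ρ ^ f) ^ i := by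
    rw [← hi, hmul]
    exact mul_le_mul hA1 hB1 (norm_nonneg _) (A.gaussNorm_nonneg _ hc0.le)
  have h2 := h i
  have hdeg : (A * B).natDegree = A.natDegree + B.natDegree := hA.natDegree_mul hB
  have h3 : ρ ^ (f * A.natDegree) * (‖B.coeff 0‖ * ρ ^ (f * t))
      ≤ ρ ^ (f * A.natDegree) * ρ ^ (f * B.natDegree) := by
    calc ρ ^ (f * A.natDegree) * (‖B.coeff 0‖ * ρ ^ (f * t))
        = ((ρ ^ f) ^ A.natDegree * ‖B.coeff 0‖) * ρ ^ (f * t) := by rw [← pow_mul]; ring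
      _ ≤ (‖(A * B).coeff i‖ * (ρ ^ f) ^ i) * ρ ^ (f * t) :=
          mul_le_mul_of_nonneg_right h1 (pow_nonneg hρ0.le _)
      _ = ‖(A * B).coeff i‖ * ρ ^ (f * (i + t)) := by
          rw [← pow_mul, mul_add, pow_add]; ring
      _ ≤ ρ ^ (f * (A * B).natDegree) := h2
      _ = ρ ^ (f * A.natDegree) * ρ ^ (f * B.natDegree) := by
          rw [hdeg, mul_add, pow_add]
  have h4 := le_of_mul_le_mul_left h3 (pow_pos hρ0 _)
  rw [hord _ hB0, ← zpow_natCast, ← zpow_natCast, ← zpow_add₀ hρ0.ne'] at h4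
  have h5 := (zpow_le_zpow_iff_right_of_lt_one₀ hρ0 hρ1).mp h4
  unfold delta
  push_cast at h5
  linarith

end Pool.Agent.WM85
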