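import Pool.Agent.LibWM85.Main
import Pool.Agent.LibWM85.Gauss

namespace Pool.Agent.WM85

open Polynomial Module

theorem simple_root {K : Type*} [Field K] [CharZero K] (α : AlgebraicClosure K) :
    ((minpoly K α).map (algebraMap K (AlgebraicClosure K))).rootMultiplicity α ≤ 1 := by
  have h : IsIntegral K α := Algebra.IsIntegral.isIntegral α
  apply rootMultiplicity_le_one_of_separable
  exact (minpoly.irreducible h).separable.map

theorem minpoly_pow_dvd {K : Type*} [Field K] [CharZero K] (α : AlgebraicClosure K) (G : K[X])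
    (hG : G.Monic) :
    (minpoly K α) ^ ((G.map (algebraMap K (AlgebraicClosure K))).rootMultiplicity α) ∣ G := by
  have hint : IsIntegral K α := Algebra.IsIntegral.isIntegral α
  suffices H : ∀ n : ℕ, ∀ G : K[X], G.Monic → G.natDegree = n →
      (minpoly K α) ^ ((G.map (algebraMap K (AlgebraicClosure K))).rootMultiplicity α) ∣ G from
    H _ G hG rfl
  intro n
  induction n using Nat.strong_induction_on with
  | _ n ih =>
    intro G hG hn
    by_cases h0 : (G.map (algebraMap K (AlgebraicClosure K))).rootMultiplicity α = 0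
    · rw [h0, pow_zero]; exact one_dvd _
    · have hroot : aeval α G = 0 := by
        have h1 : (G.map (algebraMap K (AlgebraicClosure K))).IsRoot α := by
          rw [← rootMultiplicity_pos (map_ne_zero' hG)]
          omega
        rwa [IsRoot.def, eval_map_algebraMap] at h1
      obtain ⟨C, hC⟩ := minpoly.dvd K α hroot
      have hmm := minpoly.monic hint
      have hCm : C.Monic := hmm.of_mul_monic_left (hC ▸ hG)
      have hdeg : C.natDegree < n := by
        have h2 := hmm.natDegree_mul hCm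
        rw [← hC, hn] at h2
        have h3 := minpoly.natDegree_pos hint
        omega
      have h4 := ih _ hdeg C hCm rfl
      have h5 : (G.map (algebraMap K (AlgebraicClosure K))).rootMultiplicity α
          ≤ (C.map (algebraMap K (AlgebraicClosure K))).rootMultiplicity α + 1 := by
        rw [hC, rootMult_mul hmm hCm]
        have := simple_root α
        omega
      calc (minpoly K α) ^ ((G.map (algebraMap K (AlgebraicClosure K))).rootMultiplicity α)
          ∣ (minpoly K α) ^ ((C.map (algebraMap K (AlgebraicClosure K))).rootMultiplicity α + 1) :=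
            pow_dvd_pow _ h5
        _ ∣ G := by
            rw [pow_succ', hC]
            exact mul_dvd_mul_left _ h4

section big

variable {K V : Type*} [NormedField K] [IsUltrametricDist K] [CharZero K] [AddCommGroup V]
  [Module K V] [FiniteDimensional K V]
  {σ : K →+* K} (hσn : ∀ x, ‖σ x‖ = ‖x‖) (hσs : Function.Surjective σ) (φ : V →ₛₗ[σ] V)
  (f : ℕ) (hf : 0 < f) (F : V →ₗ[K] V) (hF : ∀ x, F x = φ^[f] x) (hinj : Function.Injective F)
  {ord : K → ℤ} {ρ : ℝ} (hρ0 : 0 < ρ) (hρ1 : ρ < 1) (hord : ∀ x, x ≠ 0 → ‖x‖ = ρ ^ ord x)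
  (h k g : ℕ)

include hρ0 hρ1 hord in
omit [IsUltrametricDist K] [CharZero K] in
theorem ordHyp : OrdHyp ord := by
  constructor
  intro x y hx hy
  have h1 := hord x hx
  have h2 := hord y hy
  have h3 := hord (x * y) (mul_ne_zero hx hy)
  rw [norm_mul, h1, h2, ← zpow_add₀ hρ0.ne'] at h3
  exact ((zpow_right_injective₀ hρ0 hρ1.ne) h3).symm

include hρ0 hρ1 hord hσn in
omit [IsUltrametricDist K] [CharZero K] in
theorem ord_sigma (x : K) : ord (σ x) = ord x := by
  by_cases hx : x = 0
  · rw [hx, map_zero]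
  · have h1 := hord x hx
    have h2 := hord (σ x) ((map_ne_zero σ).mpr hx)
    rw [hσn, h1] at h2
    exact ((zpow_right_injective₀ hρ0 hρ1.ne) h2).symm

include hσn hσs hf hF hinj hρ0 hρ1 hord in
/-- The bounds for eigenvalues of slope `< 1`. -/
theorem big_bound (I : Submodule K V) (hI : ∀ x ∈ I, φ x ∈ I)
    (hIF : ∀ x ∈ I, F x ∈ I) (S : K[X]) (hS : F.charpoly = charOn F I * S)
    (hh : ∀ j, ‖F.charpoly.coeff j‖ * ρ ^ (f * (j + h)) ≤ ρ ^ (f * F.charpoly.natDegree))
    (hk : ∀ j, ‖(charOn F I).coeff j‖ * ρ ^ (f * (j + k)) ≤ ρ ^ (f * (charOn F I).natDegree))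
    (hg : ∀ j, ‖S.coeff j‖ * ρ ^ (f * (j + g)) ≤ ρ ^ (f * S.natDegree))
    (α : AlgebraicClosure K) (hα : 0 < delta ord f (minpoly K α)) :
    mult F ⊤ α ≤ f * h ∧
      min (mult F I α) (mult F ⊤ α - mult F I α) ≤ f * min k (min g (h / 2)) := by
  have ho := ordHyp (K := K) (ord := ord) hρ0 hρ1 hord
  have hoσ : ∀ x, ord (σ x) = ord x := ord_sigma hσn hρ0 hρ1 hord
  have hint : IsIntegral K α := Algebra.IsIntegral.isIntegral α
  have hirr := minpoly.irreducible hint
  have hmm := minpoly.monic hint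
  have hIF' : I ≤ I.comap F := hIF
  -- the factors
  set R := charOn F I with hR
  have hRm : R.Monic := charOn_monic F I
  have hPRS : F.charpoly = R * S := hS
  have hSm : S.Monic := hRm.of_mul_monic_left (hPRS ▸ LinearMap.charpoly_monic F)
  obtain ⟨A1, B1, hA1, hB1, hR1, hNo1, hAll1⟩ := exists_split (ord := ord) f R hRm
  obtain ⟨A2, B2, hA2, hB2, hS2, hNo2, hAll2⟩ := exists_split (ord := ord) f S hSm
  have hPsplit : F.charpoly = (A1 * A2) * (B1 * B2) := by
    rw [hPRS, hR1, hS2]; ring
  have hdetF := det_ne_zero_of_inj F hinj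
  have hP0 : F.charpoly.coeff 0 ≠ 0 := by
    intro h'
    have := LinearMap.det_eq_sign_charpoly_coeff F
    rw [h', mul_zero] at this
    exact hdetF this
  have hcoeff : B1.coeff 0 ≠ 0 ∧ B2.coeff 0 ≠ 0 := by
    rw [hPsplit, mul_coeff_zero, mul_coeff_zero (p := B1)] at hP0
    have := right_ne_zero_of_mul hP0
    exact ⟨left_ne_zero_of_mul this, right_ne_zero_of_mul this⟩
  have hδmul : delta ord f (B1 * B2) = delta ord f B1 + delta ord f B2 :=
    delta_mul ho f hB1 hB2 hcoeff.1 hcoeff.2
  have hδ1 := delta_nonneg ho f B1 hB1 hcoeff.1 hAll1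
  have hδ2 := delta_nonneg ho f B2 hB2 hcoeff.2 hAll2
  -- the three bounds
  have hb1 : delta ord f B1 ≤ f * k := by
    apply delta_le_of_coeff hρ0 hρ1 hord f k A1 B1 hA1 hB1 hcoeff.1
    rw [← hR1]; exact hk
  have hb2 : delta ord f B2 ≤ f * g := by
    apply delta_le_of_coeff hρ0 hρ1 hord f g A2 B2 hA2 hB2 hcoeff.2
    rw [← hS2]; exact hg
  have hb3 : delta ord f (B1 * B2) ≤ f * h := by
    apply delta_le_of_coeff hρ0 hρ1 hord f h (A1 * A2) (B1 * B2) (hA1.mul hA2) (hB1.mul hB2)
    · rw [mul_coeff_zero]; exact mul_ne_zero hcoeff.1 hcoeff.2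
    · rw [← hPsplit]; exact hh
  -- integrality for V
  obtain ⟨y, hy⟩ : ∃ y : ℤ, delta ord f (B1 * B2) = f * y := by
    obtain ⟨T, hT, hTd, hTu⟩ := slope_data φ f F hF hσs ho hoσ hf hinj (A1 * A2) (B1 * B2)
      (hA1.mul hA2) (hB1.mul hB2) hPsplit (hNo1.mul f hNo2) (hAll1.mul f hAll2)
    exact ⟨_, (hTu _ (Module.finBasisOfFinrankEq K T hTd)).2⟩
  -- integrality for I
  obtain ⟨x, hx⟩ : ∃ x : ℤ, delta ord f B1 = f * x := by
    have hinjI : Function.Injective (LinearMap.restrict (p := I) (q := I) F hIF) := by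
      intro a c hac
      apply Subtype.ext
      apply hinj
      exact congrArg Subtype.val hac
    have hit : ∀ z, (LinearMap.restrict (p := I) (q := I) F hIF) z = (φ.restrict hI)^[f] z :=
      fun z => restrict_iterate φ f F hF I hI hIF z
    have hch : (LinearMap.restrict (p := I) (q := I) F hIF).charpoly = A1 * B1 := by
      rw [← hR1, hR, charOn_eq F hIF']
    obtain ⟨T', hT', hTd', hTu'⟩ := slope_data (φ.restrict hI) f
      (LinearMap.restrict (p := I) (q := I) F hIF) hit hσs ho hoσ hf hinjI A1 B1 hA1 hB1 hch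
      hNo1 hAll1
    exact ⟨_, (hTu' _ (Module.finBasisOfFinrankEq K T' hTd')).2⟩
  -- multiplicities
  have hr : ((mult F I α : ℕ) : ℤ) ≤ delta ord f B1 := by
    apply le_delta ho f B1 (minpoly K α) hB1 hcoeff.1 hAll1 hmm hirr
    have h1 := minpoly_pow_dvd α R hRm
    have h2 : IsCoprime (minpoly K α) A1 := by
      rw [Irreducible.coprime_iff_not_dvd hirr]
      intro hd
      exact hNo1 _ hmm hirr hd hα
    have h3 : (minpoly K α) ^ (mult F I α) ∣ A1 * B1 := by rw [← hR1]; exact h1
    exact (h2.pow_left).dvd_of_dvd_mul_left h3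
  have hs : (((S.map (algebraMap K (AlgebraicClosure K))).rootMultiplicity α : ℕ) : ℤ)
      ≤ delta ord f B2 := by
    apply le_delta ho f B2 (minpoly K α) hB2 hcoeff.2 hAll2 hmm hirr
    have h1 := minpoly_pow_dvd α S hSm
    have h2 : IsCoprime (minpoly K α) A2 := by
      rw [Irreducible.coprime_iff_not_dvd hirr]
      intro hd
      exact hNo2 _ hmm hirr hd hα
    have h3 : (minpoly K α) ^ ((S.map (algebraMap K (AlgebraicClosure K))).rootMultiplicity α)
        ∣ A2 * B2 := by rw [← hS2]; exact h1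
    exact (h2.pow_left).dvd_of_dvd_mul_left h3
  have htop : mult F ⊤ α = mult F I α
      + (S.map (algebraMap K (AlgebraicClosure K))).rootMultiplicity α := by
    unfold mult
    rw [charOn_top, hPRS, rootMult_mul hRm hSm]
  set r := mult F I α
  set s := (S.map (algebraMap K (AlgebraicClosure K))).rootMultiplicity α
  rw [htop, Nat.add_sub_cancel_left]
  have hfz : (0 : ℤ) < f := by exact_mod_cast hf
  have hB2 : delta ord f B2 = f * (y - x) := by
    have := hy
    rw [hδmul, hx] at this
    linarith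
  have hx0 : 0 ≤ x := by
    rw [hx] at hδ1
    exact nonneg_of_mul_nonneg_right hδ1 hfz
  have hyx0 : 0 ≤ y - x := by
    rw [hB2] at hδ2
    exact nonneg_of_mul_nonneg_right hδ2 hfz
  have hyh : y ≤ h := by
    rw [hy] at hb3
    exact le_of_mul_le_mul_left hb3 hfz
  have hxk : x ≤ k := by
    rw [hx] at hb1
    exact le_of_mul_le_mul_left hb1 hfz
  have hzg : y - x ≤ g := by
    rw [hB2] at hb2
    exact le_of_mul_le_mul_left hb2 hfz
  obtain ⟨x', rfl⟩ := Int.eq_ofNat_of_zero_le hx0
  obtain ⟨z, hz⟩ := Int.eq_ofNat_of_zero_le hyx0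
  rw [hx] at hr
  rw [hB2, hz] at hs
  have hr' : r ≤ f * x' := by exact_mod_cast hr
  have hs' : s ≤ f * z := by exact_mod_cast hs
  have hxz : x' + z ≤ h := by omega
  have hxk' : x' ≤ k := by exact_mod_cast hxk
  have hzg' : z ≤ g := by
    rw [hz] at hzg
    exact_mod_cast hzg
  constructor
  · calc r + s ≤ f * x' + f * z := Nat.add_le_add hr' hs'
      _ = f * (x' + z) := by ring
      _ ≤ f * h := Nat.mul_le_mul_left _ hxz
  · have h1 : min r s ≤ f * min x' z := by
      rcases Nat.le_total x' z with hle | hle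
      · rw [min_eq_left hle]
        exact (min_le_left _ _).trans hr'
      · rw [min_eq_right hle]
        exact (min_le_right _ _).trans hs'
    refine h1.trans (Nat.mul_le_mul_left _ ?_)
    omega

end big

section complete

variable {K : Type*} [NontriviallyNormedField K] [CompleteSpace K] [IsUltrametricDist K]

/-- large spectral norm means positive defect of the minimal polynomial -/
theorem delta_pos_of_norm {ord : K → ℤ} {ρ : ℝ} (hρ0 : 0 < ρ) (hρ1 : ρ < 1)
    (hord : ∀ x, x ≠ 0 → ‖x‖ = ρ ^ ord x) (f : ℕ) (α : AlgebraicClosure K)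
    (h : ρ ^ f < spectralNorm K (AlgebraicClosure K) α) : 0 < delta ord f (minpoly K α) := by
  have hint : IsIntegral K α := Algebra.IsIntegral.isIntegral α
  have hα : α ≠ 0 := by
    rintro rfl
    rw [spectralNorm_zero] at h
    exact absurd h (not_lt.mpr (pow_pos hρ0 f).le)
  have ha0 : (minpoly K α).coeff 0 ≠ 0 := minpoly.coeff_zero_ne_zero hint hα
  have hd : 0 < (minpoly K α).natDegree := minpoly.natDegree_pos hint
  have hdR : (0 : ℝ) < (minpoly K α).natDegree := by exact_mod_cast hd
  rw [spectralNorm.spectralNorm_eq_norm_coeff_zero_rpow] at h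
  have h1 := Real.rpow_lt_rpow (pow_nonneg hρ0.le f) h hdR
  rw [← Real.rpow_mul (norm_nonneg _), one_div, inv_mul_cancel₀ hdR.ne', Real.rpow_one,
    hord _ ha0, Real.rpow_natCast, ← pow_mul, ← zpow_natCast] at h1
  have h2 := (zpow_lt_zpow_iff_right_of_lt_one₀ hρ0 hρ1).mp h1
  unfold delta
  push_cast at h2
  linarith

end complete

theorem rational_conj {K L : Type*} [Field K] [CharZero K] [Field L] [Algebra K L] {α α' : L}
    (hα : IsIntegral ℤ α) (hα' : IsIntegral ℤ α') (h : minpoly ℤ α' = minpoly ℤ α) (G : K[X])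
    (hG : G.Monic) (R : ℚ[X]) (hR : R.map (algebraMap ℚ K) = G) :
    (G.map (algebraMap K L)).rootMultiplicity α
      = (G.map (algebraMap K L)).rootMultiplicity α' := by
  have : CharZero L := charZero_of_injective_algebraMap (algebraMap K L).injective
  obtain ⟨c, hcM, hc⟩ := IsLocalization.integerNormalization_spec (nonZeroDivisors ℤ) R
  set R0 := IsLocalization.integerNormalization (nonZeroDivisors ℤ) R with hR0
  have hc0 : c ≠ 0 := nonZeroDivisors.ne_zero hcM
  have hcL : (c : L) ≠ 0 := by exact_mod_cast hc0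
  have hGL : G.map (algebraMap K L) ≠ 0 := (hG.map _).ne_zero
  have hmap : R0.map (algebraMap ℤ L) = C (c : L) * G.map (algebraMap K L) := by
    have h1 : R0.map (algebraMap ℤ L)
        = ((R0.map (algebraMap ℤ ℚ)).map (algebraMap ℚ K)).map (algebraMap K L) := by
      rw [Polynomial.map_map, Polynomial.map_map]
      congr 1
      exact RingHom.ext_int _ _
    rw [h1, hc, ← hR]
    ext k
    simp [coeff_map]
  have hR0ne : R0 ≠ 0 := by
    intro h0
    rw [h0, Polynomial.map_zero] at hmap
    have := mul_ne_zero (C_ne_zero.mpr hcL) hGL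
    exact this hmap.symm
  have key := rootMult_conj hα hα' h R0 hR0ne
  rw [hmap] at key
  have hmul : ∀ x : L,
      (C (c : L) * G.map (algebraMap K L)).rootMultiplicity x
        = (G.map (algebraMap K L)).rootMultiplicity x := by
    intro x
    rw [rootMultiplicity_mul (mul_ne_zero (C_ne_zero.mpr hcL) hGL),
      rootMultiplicity_C, zero_add]
  rw [hmul, hmul] at key
  exact key

/-- multiplicities in rational polynomials are invariant under conjugation over `ℚ` -/
theorem transfer {K L : Type*} [Field K] [CharZero K] [Field L] [Algebra K L]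
    (P : ℤ[X]) (hP : P.Monic) (α α' : L)
    (hα : ((P.map (Int.castRingHom K)).map (algebraMap K L)).IsRoot α)
    (hconj : ∀ R : ℤ[X], aeval α R = 0 → aeval α' R = 0)
    (G : K[X]) (R : ℚ[X]) (hG : G.Monic) (hR : R.map (algebraMap ℚ K) = G) :
    (G.map (algebraMap K L)).rootMultiplicity α
      = (G.map (algebraMap K L)).rootMultiplicity α' := by
  have : CharZero L := charZero_of_injective_algebraMap (algebraMap K L).injective
  have hα' : aeval α P = 0 := by
    rw [Polynomial.map_map, IsRoot.def] at hα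
    have h1 : (algebraMap K L).comp (Int.castRingHom K) = algebraMap ℤ L := RingHom.ext_int _ _
    rw [h1, eval_map_algebraMap] at hα
    exact hα
  have hint : IsIntegral ℤ α := ⟨P, hP, hα'⟩
  have h1 : aeval α' (minpoly ℤ α) = 0 := hconj _ (minpoly.aeval ℤ α)
  exact rational_conj hint ⟨P, hP, hconj P hα'⟩ (minpoly_eq_of_root hint h1) G hG R hR

theorem exists_big_conj' {K L : Type*} [NontriviallyNormedField K]
    [IsUltrametricDist K] [CharZero K] [Field L] [Algebra K L] [Algebra.IsAlgebraic K L]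
    [IsAlgClosed L] {p : ℕ} (hp : p.Prime) (hp0 : 0 < ‖(p : K)‖) (hp1 : ‖(p : K)‖ < 1)
    (f : ℕ) (P : ℤ[X]) (hP : P.Monic)
    (hc : ∀ z : ℂ, aeval z P = 0 → ‖z‖ = (p : ℝ) ^ f) (α : L)
    (hα : ((P.map (Int.castRingHom K)).map (algebraMap K L)).IsRoot α)
    (hnt : ∀ m : ℕ, 0 < m → α ^ m ≠ ((p : L) ^ f) ^ m) :
    ∃ α' : L, ‖(p : K)‖ ^ f < spectralNorm K L α' ∧
      ∀ R : ℤ[X], aeval α R = 0 → aeval α' R = 0 := by
  have : CharZero L := charZero_of_injective_algebraMap (algebraMap K L).injective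
  have hα' : aeval α P = 0 := by
    rw [Polynomial.map_map, IsRoot.def] at hα
    have h1 : (algebraMap K L).comp (Int.castRingHom K) = algebraMap ℤ L := RingHom.ext_int _ _
    rw [h1, eval_map_algebraMap] at hα
    exact hα
  have hint : IsIntegral ℤ α := ⟨P, hP, hα'⟩
  obtain ⟨α', h1, h2, h3⟩ := exists_big_conj hp hp0 hp1 f P hP hc α hα' hnt
  refine ⟨α', h3, ?_⟩
  intro R hR
  obtain ⟨c, hc'⟩ := minpoly.isIntegrallyClosed_dvd hint hR
  rw [hc', map_mul, ← h2, minpoly.aeval, zero_mul]

end Pool.Agent.WM85
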