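import Mathlib

namespace Pool.Agent.WM85

open Polynomial

/-- Kronecker: a root, in any field of characteristic zero, of a monic integral polynomial whose
complex roots have absolute value at most one, is zero or a root of unity. -/
theorem kronecker {L : Type*} [Field L] [CharZero L] (T : ℤ[X]) (hT : T.Monic)
    (hc : ∀ z : ℂ, aeval z T = 0 → ‖z‖ ≤ 1) (w : L) (hw : aeval w T = 0) (hw0 : w ≠ 0) :
    ∃ m : ℕ, 0 < m ∧ w ^ m = 1 := by
  have hint : IsIntegral ℤ w := ⟨T, hT, hw⟩
  let E := IntermediateField.adjoin ℚ ({w} : Set L)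
  let : NumberField E := {
    to_charZero := (IntermediateField.adjoin ℚ ({w} : Set L)).charZero
    to_finiteDimensional := IntermediateField.adjoin.finiteDimensional hint.tower_top }
  let y : E := ⟨w, IntermediateField.mem_adjoin_simple_self ℚ w⟩
  have hy : aeval y T = 0 := by
    have h1 : algebraMap E L (aeval y T) = 0 := by
      rw [← aeval_algebraMap_apply]
      exact hw
    exact (map_eq_zero_iff _ (algebraMap E L).injective).mp h1
  have hyint : IsIntegral ℤ y := ⟨T, hT, hy⟩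
  have hy0 : y ≠ 0 := by
    intro h
    apply hw0
    have := congrArg Subtype.val h
    exact this
  obtain ⟨m, hm, h⟩ := NumberField.Embeddings.pow_eq_one_of_norm_le_one E ℂ hy0 hyint (by
    intro ψ
    apply hc
    have h1 : ψ (aeval y T) = aeval (ψ y) T := by
      conv_rhs => rw [← map_id (p := T)]
      exact T.map_aeval_eq_aeval_map (by ext; simp) y
    rw [← h1, hy, map_zero])
  refine ⟨m, hm, ?_⟩
  have := congrArg Subtype.val h
  exact this

/-- the norm of an integer prime to `p` -/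
theorem norm_int_eq_one {K : Type*} [NormedField K] [IsUltrametricDist K] {p : ℕ}
    (hp1 : ‖(p : K)‖ < 1) (m : ℤ) (hm : IsCoprime m (p : ℤ)) : ‖(m : K)‖ = 1 := by
  obtain ⟨u, v, huv⟩ := hm
  have h1 : ‖(m : K)‖ ≤ 1 := IsUltrametricDist.norm_intCast_le_one K m
  refine le_antisymm h1 ?_
  by_contra hlt
  push Not at hlt
  have h2 : (1 : K) = (u : K) * (m : K) + (v : K) * (p : K) := by
    have := congrArg (fun x : ℤ => (x : K)) huv
    push_cast at this
    exact this.symm
  have h3 : ‖(u : K) * (m : K)‖ < 1 := by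
    rw [norm_mul]
    calc ‖(u : K)‖ * ‖(m : K)‖ ≤ 1 * ‖(m : K)‖ :=
          mul_le_mul_of_nonneg_right (IsUltrametricDist.norm_intCast_le_one K u) (norm_nonneg _)
      _ < 1 := by rwa [one_mul]
  have h4 : ‖(v : K) * (p : K)‖ < 1 := by
    rw [norm_mul]
    calc ‖(v : K)‖ * ‖(p : K)‖ ≤ 1 * ‖(p : K)‖ :=
          mul_le_mul_of_nonneg_right (IsUltrametricDist.norm_intCast_le_one K v) (norm_nonneg _)
      _ < 1 := by rwa [one_mul]
  have h5 : ‖(1 : K)‖ < 1 := by
    rw [h2]
    exact lt_of_le_of_lt (IsUltrametricDist.norm_add_le_max _ _) (max_lt h3 h4)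
  rw [norm_one] at h5
  exact lt_irrefl _ h5

theorem pow_dvd_of_norm_le {K : Type*} [NormedField K] [IsUltrametricDist K] {p : ℕ}
    (hp : p.Prime) (hp0 : 0 < ‖(p : K)‖) (hp1 : ‖(p : K)‖ < 1) (m : ℤ) (k : ℕ)
    (h : ‖(m : K)‖ ≤ ‖(p : K)‖ ^ k) : (p : ℤ) ^ k ∣ m := by
  induction k with
  | zero => simp
  | succ k ih =>
    have h1 : ‖(m : K)‖ ≤ ‖(p : K)‖ ^ k :=
      h.trans (pow_le_pow_of_le_one hp0.le hp1.le (Nat.le_succ k))
    obtain ⟨c, rfl⟩ := ih h1
    rw [pow_succ]
    apply mul_dvd_mul_left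
    by_contra hc
    have hcop : IsCoprime c (p : ℤ) := by
      have hpp : Prime (p : ℤ) := Nat.prime_iff_prime_int.mp hp
      exact ((Prime.coprime_iff_not_dvd hpp).mpr hc).symm
    have h2 := norm_int_eq_one hp1 c hcop
    push_cast at h
    rw [norm_mul, h2, norm_pow, mul_one, pow_succ] at h
    have h3 : 0 < ‖(p : K)‖ ^ k := pow_pos hp0 k
    nlinarith

/-- two roots of the minimal polynomial over `ℤ` have the same minimal polynomial -/
theorem minpoly_eq_of_root {L : Type*} [Field L] [CharZero L] {α α' : L} (hα : IsIntegral ℤ α)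
    (h : aeval α' (minpoly ℤ α) = 0) : minpoly ℤ α' = minpoly ℤ α := by
  have hα' : IsIntegral ℤ α' := ⟨minpoly ℤ α, minpoly.monic hα, h⟩
  have hd : minpoly ℤ α' ∣ minpoly ℤ α := minpoly.isIntegrallyClosed_dvd hα' h
  have hirr : Irreducible (minpoly ℤ α) := (minpoly.prime_of_isIntegrallyClosed hα).irreducible
  have hirr' : Irreducible (minpoly ℤ α') := (minpoly.prime_of_isIntegrallyClosed hα').irreducible
  exact eq_of_monic_of_associated (minpoly.monic hα') (minpoly.monic hα)
    (hirr'.associated_of_dvd hirr hd)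

theorem rootMult_conj_le {L : Type*} [Field L] [CharZero L] {α α' : L} (hα : IsIntegral ℤ α)
    (h : minpoly ℤ α' = minpoly ℤ α) (R : ℤ[X]) (hR : R ≠ 0) :
    (R.map (algebraMap ℤ L)).rootMultiplicity α ≤ (R.map (algebraMap ℤ L)).rootMultiplicity α' := by
  have hinj : Function.Injective (algebraMap ℤ L) := (algebraMap ℤ L).injective_int
  have hR' : R.map (algebraMap ℤ L) ≠ 0 := (Polynomial.map_ne_zero_iff hinj).mpr hR
  by_contra hlt
  push Not at hlt
  set k := (R.map (algebraMap ℤ L)).rootMultiplicity α' with hk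
  have h1 := (lt_rootMultiplicity_iff_isRoot_iterate_derivative hR').mp hlt
  have h2 : k < (R.map (algebraMap ℤ L)).rootMultiplicity α' := by
    rw [lt_rootMultiplicity_iff_isRoot_iterate_derivative hR']
    intro m hm
    have h3 := h1 m hm
    rw [iterate_derivative_map, IsRoot.def, eval_map_algebraMap] at h3 ⊢
    have h4 : minpoly ℤ α ∣ derivative^[m] R := minpoly.isIntegrallyClosed_dvd hα h3
    rw [← h] at h4
    obtain ⟨c, hc⟩ := h4
    rw [hc, map_mul, minpoly.aeval, zero_mul]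
  exact lt_irrefl _ h2

theorem rootMult_conj {L : Type*} [Field L] [CharZero L] {α α' : L} (hα : IsIntegral ℤ α)
    (hα' : IsIntegral ℤ α') (h : minpoly ℤ α' = minpoly ℤ α) (R : ℤ[X]) (hR : R ≠ 0) :
    (R.map (algebraMap ℤ L)).rootMultiplicity α = (R.map (algebraMap ℤ L)).rootMultiplicity α' :=
  le_antisymm (rootMult_conj_le hα h R hR) (rootMult_conj_le hα' h.symm R hR)

/-- integral descaling: `q ^ (-d) Q(q X)` -/
noncomputable def descale (Q : ℤ[X]) (q : ℤ) : ℤ[X] :=
  ∑ j ∈ Finset.range (Q.natDegree + 1), C (Q.coeff j / q ^ (Q.natDegree - j)) * X ^ j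

theorem descale_coeff (Q : ℤ[X]) (q : ℤ) : (descale Q q).coeff Q.natDegree = Q.coeff Q.natDegree := by
  unfold descale
  rw [finsetSum_coeff, Finset.sum_eq_single Q.natDegree]
  · simp
  · intro j _ hj
    rw [coeff_C_mul, coeff_X_pow, if_neg (Ne.symm hj), mul_zero]
  · intro h
    simp at h

theorem descale_monic (Q : ℤ[X]) (hQ : Q.Monic) (q : ℤ) : (descale Q q).Monic := by
  apply monic_of_degree_le Q.natDegree
  · unfold descale
    refine (degree_sum_le _ _).trans ?_
    apply Finset.sup_le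
    intro j hj
    refine (degree_C_mul_X_pow_le _ _).trans ?_
    have := Finset.mem_range.mp hj
    exact_mod_cast Nat.lt_succ_iff.mp this
  · rw [descale_coeff]
    exact hQ

theorem descale_aeval {E : Type*} [Field E] (Q : ℤ[X]) (q : ℤ)
    (h : ∀ j ≤ Q.natDegree, q ^ (Q.natDegree - j) ∣ Q.coeff j) (w : E) :
    (q : E) ^ Q.natDegree * aeval w (descale Q q) = aeval ((q : E) * w) Q := by
  rw [descale, map_sum, Finset.mul_sum, aeval_def, eval₂_eq_sum_range]
  apply Finset.sum_congr rfl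
  intro j hj
  have hj' : j ≤ Q.natDegree := Nat.lt_succ_iff.mp (Finset.mem_range.mp hj)
  obtain ⟨c, hc⟩ := h j hj'
  have hcE : ((Q.coeff j / q ^ (Q.natDegree - j) : ℤ) : E) * (q : E) ^ (Q.natDegree - j)
      = (Q.coeff j : E) := by
    have h1 : (Q.coeff j / q ^ (Q.natDegree - j)) * q ^ (Q.natDegree - j) = Q.coeff j :=
      Int.ediv_mul_cancel ⟨c, hc⟩
    have := congrArg (fun x : ℤ => (x : E)) h1
    push_cast at this ⊢
    exact this
  have hpow : (q : E) ^ Q.natDegree = (q : E) ^ (Q.natDegree - j) * (q : E) ^ j := by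
    rw [← pow_add]
    congr 1
    omega
  rw [map_mul, aeval_C, map_pow, aeval_X]
  simp only [algebraMap_int_eq, eq_intCast]
  rw [hpow, mul_pow, ← hcE]
  ring

section big

variable {K L : Type*} [NontriviallyNormedField K] [CompleteSpace K] [IsUltrametricDist K]
  [CharZero K] [Field L] [Algebra K L] [Algebra.IsAlgebraic K L] [IsAlgClosed L]

omit [CharZero K] [CompleteSpace K] in
/-- coefficient bound from a bound for the roots -/
theorem coeff_norm_le (G : K[X]) (hG : G.Monic) (c : ℝ) (hc : 0 ≤ c)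
    (h : ∀ x : L, aeval x G = 0 → spectralNorm K L x ≤ c) (j : ℕ) (hj : j < G.natDegree) :
    ‖G.coeff j‖ ≤ c ^ (G.natDegree - j) := by
  classical
  have hsp : (mapAlg K L G).Splits := IsAlgClosed.splits _
  have hmon : (mapAlg K L G).Monic := by
    rw [mapAlg_eq_map]
    exact hG.map _
  have h1 := max_norm_root_eq_spectralValue (K := K) (L := L) (f := spectralAlgNorm K L)
    spectralAlgNorm_isPowMul (isNonarchimedean_spectralNorm) spectralAlgNorm_one G
    (mapAlg K L G).roots (hsp.eq_prod_roots_of_monic hmon)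
  have h2 : spectralValue G ≤ c := by
    rw [← h1]
    apply ciSup_le
    intro x
    split_ifs with hx
    · rw [spectralAlgNorm_def]
      apply h
      have := (mem_roots'.mp hx).2
      rw [mapAlg_eq_map, IsRoot.def, eval_map_algebraMap] at this
      exact this
    · exact hc
  have h3 : spectralValueTerms G j ≤ c :=
    (le_ciSup (spectralValueTerms_bddAbove G) j).trans h2
  rw [spectralValueTerms_of_lt_natDegree G hj] at h3
  have hpos : (0 : ℝ) < ((G.natDegree - j : ℕ) : ℝ) := by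
    have : 0 < G.natDegree - j := by omega
    exact_mod_cast this
  have hcast : ((G.natDegree : ℝ) - (j : ℝ)) = ((G.natDegree - j : ℕ) : ℝ) := by
    rw [Nat.cast_sub hj.le]
  rw [hcast] at h3
  have h4 := Real.rpow_le_rpow (Real.rpow_nonneg (norm_nonneg _) _) h3 hpos.le
  rw [← Real.rpow_mul (norm_nonneg _), one_div, inv_mul_cancel₀ hpos.ne', Real.rpow_one,
    Real.rpow_natCast] at h4
  exact h4

omit [CompleteSpace K] in
/-- a non-Tate eigenvalue has a conjugate of large absolute value -/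
theorem exists_big_conj {p : ℕ} (hp : p.Prime) (hp0 : 0 < ‖(p : K)‖) (hp1 : ‖(p : K)‖ < 1)
    (f : ℕ) (P : ℤ[X]) (hP : P.Monic)
    (hc : ∀ z : ℂ, aeval z P = 0 → ‖z‖ = (p : ℝ) ^ f) (α : L) (hα : aeval α P = 0)
    (hnt : ∀ m : ℕ, 0 < m → α ^ m ≠ ((p : L) ^ f) ^ m) :
    ∃ α' : L, IsIntegral ℤ α' ∧ minpoly ℤ α' = minpoly ℤ α ∧
      ‖(p : K)‖ ^ f < spectralNorm K L α' := by
  have : CharZero L := charZero_of_injective_algebraMap (algebraMap K L).injective
  have hint : IsIntegral ℤ α := ⟨P, hP, hα⟩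
  by_contra hno
  push Not at hno
  set Q := minpoly ℤ α with hQ
  have hQm : Q.Monic := minpoly.monic hint
  have hQP : Q ∣ P := minpoly.isIntegrallyClosed_dvd hint hα
  have hroot : ∀ x : L, aeval x Q = 0 → spectralNorm K L x ≤ ‖(p : K)‖ ^ f := by
    intro x hx
    exact hno x ⟨Q, hQm, hx⟩ (minpoly_eq_of_root hint hx)
  set QK : K[X] := Q.map (algebraMap ℤ K) with hQK
  have hQKm : QK.Monic := hQm.map _
  have hdeg : QK.natDegree = Q.natDegree := hQm.natDegree_map _
  have hdvd : ∀ j ≤ Q.natDegree, ((p : ℤ) ^ f) ^ (Q.natDegree - j) ∣ Q.coeff j := by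
    intro j hj
    rcases Nat.lt_or_ge j Q.natDegree with hj' | hj'
    · have h1 := coeff_norm_le (L := L) QK hQKm (‖(p : K)‖ ^ f) (pow_nonneg hp0.le f) (by
        intro x hx
        apply hroot
        rw [hQK, aeval_map_algebraMap] at hx
        exact hx) j (by rw [hdeg]; exact hj')
      rw [hdeg, hQK, coeff_map, ← pow_mul] at h1
      rw [← pow_mul]
      exact pow_dvd_of_norm_le (K := K) hp hp0 hp1 _ _ h1
    · have : j = Q.natDegree := le_antisymm hj hj'
      rw [this]
      simp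
  set T := descale Q ((p : ℤ) ^ f) with hT
  have hTm : T.Monic := descale_monic Q hQm _
  have hpC : ((((p : ℤ) ^ f : ℤ)) : ℂ) ≠ 0 := by
    push_cast
    exact pow_ne_zero _ (by exact_mod_cast hp.ne_zero)
  have hpL : ((((p : ℤ) ^ f : ℤ)) : L) ≠ 0 := by
    push_cast
    exact pow_ne_zero _ (by exact_mod_cast hp.ne_zero)
  have hcT : ∀ z : ℂ, aeval z T = 0 → ‖z‖ ≤ 1 := by
    intro z hz
    have h1 := descale_aeval (E := ℂ) Q ((p : ℤ) ^ f) hdvd z
    rw [← hT, hz, mul_zero] at h1
    have h2 : aeval ((((p : ℤ) ^ f : ℤ) : ℂ) * z) P = 0 := by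
      obtain ⟨c, hc'⟩ := hQP
      rw [hc', map_mul, ← h1, zero_mul]
    have h3 := hc _ h2
    rw [norm_mul] at h3
    have h4 : ‖((((p : ℤ) ^ f : ℤ)) : ℂ)‖ = (p : ℝ) ^ f := by
      push_cast
      rw [norm_pow, Complex.norm_natCast]
    rw [h4] at h3
    have h5 : (0 : ℝ) < (p : ℝ) ^ f := pow_pos (by exact_mod_cast hp.pos) f
    have h6 : (p : ℝ) ^ f * ‖z‖ = (p : ℝ) ^ f * 1 := by rw [h3, mul_one]
    exact (mul_left_cancel₀ h5.ne' h6).le
  have hα0 : α ≠ 0 := by
    intro h0
    rw [h0] at hα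
    -- then zero is a complex root of P
    have h1 : aeval (0 : ℂ) P = 0 := by
      have h2 : P.coeff 0 = 0 := by
        have h3 : aeval (0 : L) P = ((P.coeff 0 : ℤ) : L) := by
          rw [← coeff_zero_eq_aeval_zero']
          simp
        rw [h3] at hα
        exact_mod_cast hα
      rw [← coeff_zero_eq_aeval_zero', h2, map_zero]
    have h2 := hc 0 h1
    rw [norm_zero] at h2
    have h5 : (0 : ℝ) < (p : ℝ) ^ f := pow_pos (by exact_mod_cast hp.pos) f
    exact h5.ne h2
  have hw : aeval (α / ((((p : ℤ) ^ f : ℤ)) : L)) T = 0 := by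
    have h1 := descale_aeval (E := L) Q ((p : ℤ) ^ f) hdvd (α / ((((p : ℤ) ^ f : ℤ)) : L))
    rw [mul_div_cancel₀ _ hpL, hQ, minpoly.aeval] at h1
    exact (mul_eq_zero.mp h1).resolve_left (pow_ne_zero _ hpL)
  obtain ⟨m, hm, hm'⟩ := kronecker T hTm hcT _ hw (div_ne_zero hα0 hpL)
  apply hnt m hm
  rw [div_pow, div_eq_one_iff_eq (pow_ne_zero _ hpL)] at hm'
  rw [hm']
  push_cast
  rfl

end big

end Pool.Agent.WM85
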