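import Pool.Agent.LibWM85.Lattice
import Pool.Agent.LibWM85.Kron

namespace Pool.Agent.WM85

open Polynomial Module

section mult

variable {K V : Type*} [Field K] [AddCommGroup V] [Module K V] [FiniteDimensional K V]

theorem charOn_top (F : V →ₗ[K] V) : charOn F ⊤ = F.charpoly := by
  have h : (⊤ : Submodule K V) ≤ (⊤ : Submodule K V).comap F := by simp
  rw [charOn_eq F h]
  let e : (⊤ : Submodule K V) ≃ₗ[K] V := Submodule.topEquiv
  have h1 : e.conj (LinearMap.restrict (p := ⊤) (q := ⊤) F h) = F := by
    ext x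
    simp [e, LinearEquiv.conj_apply]
  rw [← LinearEquiv.charpoly_conj e, h1]

theorem charOn_bot (F : V →ₗ[K] V) : charOn F ⊥ = 1 := by
  have h : (⊥ : Submodule K V) ≤ (⊥ : Submodule K V).comap F := by simp
  rw [charOn_eq F h]
  have h1 := LinearMap.charpoly_natDegree (LinearMap.restrict (p := ⊥) (q := ⊥) F h)
  rw [finrank_bot] at h1
  exact (LinearMap.charpoly_monic _).natDegree_eq_zero.mp h1

theorem map_ne_zero' {G : K[X]} (hG : G.Monic) :
    G.map (algebraMap K (AlgebraicClosure K)) ≠ 0 := (hG.map _).ne_zero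

theorem rootMult_mul {A B : K[X]} (hA : A.Monic) (hB : B.Monic) (α : AlgebraicClosure K) :
    ((A * B).map (algebraMap K (AlgebraicClosure K))).rootMultiplicity α
      = (A.map (algebraMap K (AlgebraicClosure K))).rootMultiplicity α
        + (B.map (algebraMap K (AlgebraicClosure K))).rootMultiplicity α := by
  rw [Polynomial.map_mul, rootMultiplicity_mul]
  exact mul_ne_zero (map_ne_zero' hA) (map_ne_zero' hB)

theorem mult_top (F : V →ₗ[K] V) {S : Submodule K V} (h : S ≤ S.comap F)
    (α : AlgebraicClosure K) :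
    mult F ⊤ α = mult F S α
      + ((S.mapQ S F h).charpoly.map (algebraMap K (AlgebraicClosure K))).rootMultiplicity α := by
  unfold mult
  rw [charOn_top, charOn_mul F h, rootMult_mul (charOn_monic F S) (LinearMap.charpoly_monic _)]

theorem mult_mono (F : V →ₗ[K] V) {S T : Submodule K V} (hS : S ≤ S.comap F)
    (hT : T ≤ T.comap F) (hST : S ≤ T) (α : AlgebraicClosure K) : mult F S α ≤ mult F T α := by
  unfold mult
  obtain ⟨C, hC⟩ := charOn_dvd_charOn F hS hT hST
  have hCm : C.Monic := (charOn_monic F S).of_mul_monic_left (hC ▸ charOn_monic F T)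
  rw [hC, rootMult_mul (charOn_monic F S) hCm]
  exact Nat.le_add_right _ _

variable (F : V →ₗ[K] V) (β : LinearMap.BilinForm K V) (hβ : β.Nondegenerate) (hs : β.IsRefl)
  (c : K) (hc : c ≠ 0) (hF : ∀ x y, β (F x) (F y) = c * β x y)

include hF in
theorem orthogonal_stable (hinj : Function.Injective F) (I : Submodule K V)
    (hI : I ≤ I.comap F) : β.orthogonal I ≤ (β.orthogonal I).comap F := by
  intro x hx
  rw [Submodule.mem_comap, LinearMap.BilinForm.mem_orthogonal_iff]
  intro y hy
  set G : I →ₗ[K] I := LinearMap.restrict (p := I) (q := I) F hI with hG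
  have hGinj : Function.Injective G := by
    intro a b hab
    apply Subtype.ext
    apply hinj
    exact congrArg Subtype.val hab
  have hGsurj : Function.Surjective G := LinearMap.injective_iff_surjective.mp hGinj
  obtain ⟨z, hz⟩ := hGsurj ⟨y, hy⟩
  have hz' : F z = y := congrArg Subtype.val hz
  have h1 : β (z : V) x = 0 := hx z z.2
  show β y (F x) = 0
  rw [← hz', hF, h1, mul_zero]

include hβ hs hc hF in
theorem mult_orth (hinj : Function.Injective F) (I : Submodule K V) (hI : I ≤ I.comap F)
    (α : AlgebraicClosure K) (hα : α ≠ 0) :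
    mult F ⊤ α = mult F (β.orthogonal I) α
      + mult F I (algebraMap K (AlgebraicClosure K) c / α) := by
  have hI' := orthogonal_stable F β c hF hinj I hI
  rw [mult_top F hI', mult_orthogonal F β hβ hs c hc hF I hI hI' α hα]
  rfl

include hβ hs hc hF in
theorem mult_top_symm (hinj : Function.Injective F) (α : AlgebraicClosure K) (hα : α ≠ 0) :
    mult F ⊤ α = mult F ⊤ (algebraMap K (AlgebraicClosure K) c / α) := by
  have h1 := mult_orth F β hβ hs c hc hF hinj ⊤ (by simp) α hα
  have h2 : β.orthogonal ⊤ = ⊥ := by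
    rw [eq_bot_iff]
    intro x hx
    rw [Submodule.mem_bot]
    apply hβ.2
    intro y
    exact hx y Submodule.mem_top
  have h3 : mult F ⊥ α = 0 := by
    unfold mult
    rw [charOn_bot, Polynomial.map_one]
    simp
  rw [h2, h3, zero_add] at h1
  exact h1

include hβ hs hc hF in
/-- everything reduces to `min (r, e - r)` -/
theorem reduce (hinj : Function.Injective F) (I : Submodule K V) (hI : I ≤ I.comap F)
    (α : AlgebraicClosure K) (hα : α ≠ 0)
    (hsym : mult F I α = mult F I (algebraMap K (AlgebraicClosure K) c / α)) (B : ℕ)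
    (hB : min (mult F I α) (mult F ⊤ α - mult F I α) ≤ B) :
    mult F (I ⊓ β.orthogonal I) α ≤ B ∧ mult F ⊤ α ≤ mult F (I ⊔ β.orthogonal I) α + B := by
  have hI' := orthogonal_stable F β c hF hinj I hI
  have h1 := mult_orth F β hβ hs c hc hF hinj I hI α hα
  rw [← hsym] at h1
  have hinf : I ⊓ β.orthogonal I ≤ (I ⊓ β.orthogonal I).comap F := by
    intro x hx
    exact ⟨hI hx.1, hI' hx.2⟩
  have hsup : I ⊔ β.orthogonal I ≤ (I ⊔ β.orthogonal I).comap F := by
    apply sup_le
    · exact hI.trans (Submodule.comap_mono le_sup_left)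
    · exact hI'.trans (Submodule.comap_mono le_sup_right)
  have h2 := mult_mono F hinf hI inf_le_left α
  have h3 := mult_mono F hinf hI' inf_le_right α
  have h4 := mult_mono F hI hsup le_sup_left α
  have h5 := mult_mono F hI' hsup le_sup_right α
  omega

end mult

end Pool.Agent.WM85
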