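import Pool.Agent.LibWM85.Mono
import Pool.Agent.LibWM85.Main

namespace Pool.Agent.WM85

open Polynomial Module

section graded

variable {K V : Type*} [Field K] [AddCommGroup V] [Module K V] [FiniteDimensional K V]

theorem exists_killed {U : Type*} [AddCommGroup U] [Module K U] [FiniteDimensional K U]
    (G : U →ₗ[K] U) (α : AlgebraicClosure K)
    (h : (G.charpoly.map (algebraMap K (AlgebraicClosure K))).IsRoot α) :
    ∃ u, u ≠ 0 ∧ aeval G (minpoly K α) u = 0 := by
  by_contra hno
  push Not at hno
  have hinj : ∀ u, aeval G (minpoly K α) u = 0 → u = 0 := by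
    intro u hu
    by_contra h0
    exact hno u h0 hu
  have hroot : aeval α (minpoly K G) = 0 :=
    root_of_aeval_eq_zero G (minpoly K G) (minpoly.aeval K G) α h
  obtain ⟨c, hc⟩ := minpoly.dvd K α hroot
  have hGint : IsIntegral K G := Algebra.IsIntegral.isIntegral G
  have hμ := minpoly.ne_zero hGint
  have hc0 : c ≠ 0 := by
    rintro rfl
    rw [mul_zero] at hc
    exact hμ hc
  have hπ : minpoly K α ≠ 0 := by
    intro h0
    rw [h0, zero_mul] at hc
    exact hμ hc
  have h1 : aeval G c = 0 := by
    apply LinearMap.ext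
    intro u
    rw [LinearMap.zero_apply]
    apply hinj
    have h2 : aeval G (minpoly K α * c) = 0 := by rw [← hc]; exact minpoly.aeval K G
    rw [map_mul] at h2
    have := congrArg (fun T : Module.End K U => T u) h2
    simpa [Module.End.mul_apply] using this
  have h3 := minpoly.dvd K G h1
  have h4 := natDegree_le_of_dvd h3 hc0
  have h5 : 0 < (minpoly K α).natDegree := minpoly.natDegree_pos (Algebra.IsIntegral.isIntegral α)
  have h6 : (minpoly K G).natDegree = (minpoly K α).natDegree + c.natDegree := by
    rw [hc, natDegree_mul hπ hc0]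
  omega

theorem exists_of_mult_ne (F : V →ₗ[K] V) {A B : Submodule K V} (hAB : A ≤ B)
    (hA : A ≤ A.comap F) (hB : B ≤ B.comap F) (α : AlgebraicClosure K)
    (h : mult F B α ≠ mult F A α) :
    ∃ x ∈ B, x ∉ A ∧ aeval F (minpoly K α) x ∈ A := by
  classical
  set G := LinearMap.restrict (p := B) (q := B) F hB with hG
  set A' : Submodule K B := A.comap B.subtype with hA'
  have h' : A' ≤ A'.comap G := by
    intro x hx
    simp only [hA', Submodule.mem_comap, Submodule.subtype_apply] at hx ⊢
    exact hA hx
  have key : (G.restrict h').charpoly = (F.restrict hA).charpoly := by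
    let e : A' ≃ₗ[K] A := Submodule.comapSubtypeEquivOfLe hAB
    have : F.restrict hA = e.conj (G.restrict h') := by
      ext x
      simp [e, LinearEquiv.conj_apply, hG, Submodule.comapSubtypeEquivOfLe]
    rw [this, LinearEquiv.charpoly_conj]
  have hmul : charOn F B = charOn F A * (A'.mapQ A' G h').charpoly := by
    rw [charOn_eq F hB, charOn_eq F hA, ← key, charpoly_mul A' G h']
  have hmult : mult F B α = mult F A α
      + ((A'.mapQ A' G h').charpoly.map (algebraMap K (AlgebraicClosure K))).rootMultiplicity α := by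
    unfold mult
    rw [hmul, rootMult_mul (charOn_monic F A) (LinearMap.charpoly_monic _)]
  have hroot : ((A'.mapQ A' G h').charpoly.map (algebraMap K (AlgebraicClosure K))).IsRoot α := by
    rw [← rootMultiplicity_pos (map_ne_zero' (LinearMap.charpoly_monic _))]
    omega
  obtain ⟨u, hu0, hu⟩ := exists_killed _ α hroot
  obtain ⟨x, rfl⟩ := Submodule.mkQ_surjective A' u
  have hpoly : ∀ (g : K[X]) (x : B), aeval (A'.mapQ A' G h') g (A'.mkQ x)
      = A'.mkQ (aeval G g x) := by
    intro g x
    induction g using Polynomial.induction_on' with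
    | add p q hp hq => simp only [map_add, LinearMap.add_apply, hp, hq]
    | monomial n a =>
      simp only [aeval_monomial, Module.End.mul_apply, Module.algebraMap_end_apply, map_smul]
      congr 1
      induction n with
      | zero => simp
      | succ n ih => rw [pow_succ', pow_succ', Module.End.mul_apply, Module.End.mul_apply, ih,
          Submodule.mkQ_apply, Submodule.mkQ_apply, Submodule.mapQ_apply]
  rw [hpoly, Submodule.mkQ_apply, Submodule.Quotient.mk_eq_zero] at hu
  refine ⟨x, x.2, ?_, ?_⟩
  · intro hxA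
    apply hu0
    rw [Submodule.mkQ_apply, Submodule.Quotient.mk_eq_zero]
    exact hxA
  · have h1 : ((aeval G (minpoly K α) x : B) : V) = aeval F (minpoly K α) x :=
      aeval_restrict F hB _ x
    rw [← h1]
    exact hu

omit [FiniteDimensional K V] in
theorem aeval_mem (F : V →ₗ[K] V) {A : Submodule K V} (hA : A ≤ A.comap F) (g : K[X]) (x : V)
    (hx : x ∈ A) : aeval F g x ∈ A := by
  have := aeval_restrict F hA g ⟨x, hx⟩
  rw [← this]
  exact Subtype.mem _

theorem root_of_killed (F : V →ₗ[K] V) {A : Submodule K V} (hA : A ≤ A.comap F) (g : K[X])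
    (hg : Irreducible g) (y : V) (hy : y ∉ A) (hgy : aeval F g y ∈ A) : g ∣ F.charpoly := by
  by_contra hnd
  have hcop : IsCoprime g F.charpoly := (Irreducible.coprime_iff_not_dvd hg).mpr hnd
  obtain ⟨u, v, huv⟩ := hcop
  apply hy
  have h1 : aeval F (u * g + v * F.charpoly) y = y := by rw [huv]; simp
  rw [map_add, map_mul, map_mul, LinearMap.add_apply, Module.End.mul_apply, Module.End.mul_apply,
    LinearMap.aeval_self_charpoly, LinearMap.zero_apply, map_zero, add_zero] at h1
  rw [← h1]
  exact aeval_mem F hA u _ hgy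

omit [FiniteDimensional K V] in
theorem aeval_semiconj (A B T : V →ₗ[K] V) (h : ∀ x, A (T x) = T (B x)) (g : K[X]) (x : V) :
    aeval A g (T x) = T (aeval B g x) := by
  induction g using Polynomial.induction_on' with
  | add p q hp hq => simp only [map_add, LinearMap.add_apply, hp, hq]
  | monomial n a =>
    simp only [aeval_monomial, Module.End.mul_apply, Module.algebraMap_end_apply, map_smul]
    congr 1
    induction n with
    | zero => simp
    | succ n ih => rw [pow_succ', pow_succ', Module.End.mul_apply, Module.End.mul_apply, ih, h]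

theorem irreducible_scale (π : K[X]) (hπ : Irreducible π) (c : K) (hc : c ≠ 0) :
    Irreducible (π.comp (C c * X)) := by
  let : Invertible c := invertibleOfNonzero hc
  have h := (MulEquiv.irreducible_iff (algEquivCMulXAddC c 0)).mpr hπ
  have h2 : (algEquivCMulXAddC c 0) π = π.comp (C c * X) := by
    simp [comp_eq_aeval]
  rwa [h2] at h

omit [FiniteDimensional K V] in
theorem aeval_scale (F : V →ₗ[K] V) (π : K[X]) (c : K) :
    aeval F (π.comp (C c * X)) = aeval (c • F) π := by
  rw [aeval_comp]
  congr 1
  rw [map_mul, aeval_C, aeval_X]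
  ext x
  simp

/-- an eigenvalue `α` on `gr_s` gives the eigenvalue `α / c ^ s` on `V` -/
theorem graded_root (F N : V →ₗ[K] V) (c : K) (hc : c ≠ 0) (hFi : Function.Injective F)
    (hFN : ∀ x, N (F x) = c • F (N x)) (M : ℤ → Submodule K V) (hM : IsMono N M)
    (α : AlgebraicClosure K) (s : ℤ) (h : mult F (M s) α ≠ mult F (M (s - 1)) α) :
    aeval (α / (algebraMap K (AlgebraicClosure K) c) ^ s) F.charpoly = 0 := by
  have hFs : Function.Surjective F := LinearMap.injective_iff_surjective.mp hFi
  have hst := hM.stable hc hFi hFs hFN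
  have hcL : algebraMap K (AlgebraicClosure K) c ≠ 0 := by
    rw [Ne, map_eq_zero]; exact hc
  have hint : IsIntegral K α := Algebra.IsIntegral.isIntegral α
  have hirr := minpoly.irreducible hint
  -- it suffices to find a divisor
  have hdiv : (minpoly K α).comp (C (c ^ s) * X) ∣ F.charpoly →
      aeval (α / (algebraMap K (AlgebraicClosure K) c) ^ s) F.charpoly = 0 := by
    intro hd
    obtain ⟨d, hd⟩ := hd
    rw [hd, map_mul, aeval_comp, map_mul, aeval_C, aeval_X, map_zpow₀,
      mul_div_cancel₀ _ (zpow_ne_zero _ hcL), minpoly.aeval, zero_mul]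
  apply hdiv
  obtain ⟨x, hx, hx', hπx⟩ := exists_of_mult_ne F (hM.mono s) (hst (s - 1)) (hst s) α h
  rcases le_or_gt 0 s with hs | hs
  · obtain ⟨t, rfl⟩ := Int.eq_ofNat_of_zero_le hs
    have hy : (N ^ t) x ∉ M (-(t : ℤ) - 1) := fun hy => hx' (hM.inj t x hx hy)
    apply root_of_killed F (hst (-(t : ℤ) - 1)) _
      (irreducible_scale _ hirr _ (zpow_ne_zero _ hc)) _ hy
    rw [aeval_scale, aeval_semiconj ((c ^ (t : ℤ)) • F) F (N ^ t) (by
      intro z
      rw [LinearMap.smul_apply, pow_comm hFN, zpow_natCast])]
    have h1 := hM.shift_pow t _ _ hπx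
    have e : (t : ℤ) - 1 - 2 * (t : ℤ) = -(t : ℤ) - 1 := by ring
    rwa [e] at h1
  · obtain ⟨t, ht⟩ : ∃ t : ℕ, s = -(t : ℤ) := ⟨(-s).toNat, by omega⟩
    subst ht
    obtain ⟨u, hu, hux⟩ := hM.surj' t x hx
    have hu' : u ∉ M ((t : ℤ) - 1) := by
      intro hu'
      apply hx'
      have h1 := hM.shift_pow t _ _ hu'
      rw [hux] at h1
      have e : (t : ℤ) - 1 - 2 * (t : ℤ) = -(t : ℤ) - 1 := by ring
      rwa [e] at h1
    apply root_of_killed F (hst ((t : ℤ) - 1)) _
      (irreducible_scale _ hirr _ (zpow_ne_zero _ hc)) _ hu'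
    rw [aeval_scale]
    apply hM.inj t _
    · apply aeval_mem
      · intro z hz
        exact Submodule.smul_mem _ _ (hst t hz)
      · exact hu
    · rw [← aeval_semiconj F ((c ^ (-(t : ℤ))) • F) (N ^ t), hux]
      · exact hπx
      · intro z
        rw [LinearMap.smul_apply, map_smul, pow_comm hFN, smul_smul, zpow_neg, zpow_natCast,
          inv_mul_cancel₀ (pow_ne_zero _ hc), one_smul]

end graded

end Pool.Agent.WM85
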