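import Pool.Agent.LibWM85.Slope

namespace Pool.Agent.WM85

open Polynomial Module

theorem exists_minor {K : Type*} [Field K] {d n : ℕ} (W : Matrix (Fin d) (Fin n) K)
    (h : LinearIndependent K W.row) : ∃ s : Fin d → Fin n, (W.submatrix id s).det ≠ 0 := by
  classical
  have hr : W.rank = d := by rw [h.rank_matrix, Fintype.card_fin]
  rw [Matrix.rank_eq_finrank_span_cols] at hr
  have htop : Submodule.span K (Set.range W.col) = ⊤ := by
    apply Submodule.eq_top_of_finrank_eq
    rw [hr, Module.finrank_fin_fun]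
  obtain ⟨t, ht1, ht2, ht3⟩ := exists_linearIndependent K (Set.range W.col)
  rw [htop] at ht2
  let bt : Basis t K (Fin d → K) := Basis.mk ht3 (by rw [Subtype.range_coe]; exact ht2.ge)
  let bs : Basis (Fin d) K (Fin d → K) := Pi.basisFun K (Fin d)
  let e : Fin d ≃ t := bs.indexEquiv bt
  have hs : ∀ i : Fin d, ∃ j : Fin n, W.col j = (e i : Fin d → K) := fun i => ht1 (e i).2
  choose s hs using hs
  refine ⟨s, ?_⟩
  have hli : LinearIndependent K (W.submatrix id s).transpose.row := by
    have h1 : (W.submatrix id s).transpose.row = fun i => ((e i : t) : Fin d → K) := by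
      funext i
      rw [← hs i]
      rfl
    rw [h1]
    exact ht3.comp e e.injective
  rw [Matrix.linearIndependent_rows_iff_isUnit, Matrix.isUnit_iff_isUnit_det,
    Matrix.det_transpose] at hli
  exact hli.ne_zero

variable {K V : Type*} [NormedField K] [AddCommGroup V] [Module K V]

theorem exists_good_basis {n d : ℕ} (b : Basis (Fin n) K V) (S : Submodule K V)
    (w : Basis (Fin d) K S) :
    ∃ (u : Basis (Fin d) K S) (s : Fin d → Fin n),
      (∀ i j, b.repr (u i : V) (s j) = if i = j then 1 else 0) ∧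
      ∀ i l, ‖b.repr (u i : V) l‖ ≤ 1 := by
  classical
  rcases Nat.eq_zero_or_pos d with hd0 | hd0
  · subst hd0
    exact ⟨w, fun i => i.elim0, fun i => i.elim0, fun i => i.elim0⟩
  have : Nonempty (Fin d) := ⟨⟨0, hd0⟩⟩
  let W : Matrix (Fin d) (Fin n) K := fun i l => b.repr (w i : V) l
  have hW : LinearIndependent K W.row := by
    have h1 : LinearIndependent K (fun i => b.equivFun (S.subtype (w i))) := by
      have h2 := w.linearIndependent
      have h3 := h2.map' S.subtype (Submodule.ker_subtype S)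
      exact h3.map' b.equivFun.toLinearMap (LinearEquiv.ker _)
    exact h1
  obtain ⟨s0, hs0⟩ := exists_minor W hW
  have hne : Nonempty (Fin d → Fin n) := ⟨s0⟩
  obtain ⟨s, hs⟩ := Finite.exists_max (fun s : Fin d → Fin n => ‖(W.submatrix id s).det‖)
  have hD0 : (W.submatrix id s).det ≠ 0 := by
    intro h
    have := hs s0
    simp only [h, norm_zero] at this
    exact hs0 (norm_le_zero_iff.mp this)
  set D := W.submatrix id s with hD
  let u0 : Fin d → S := fun i => ∑ k, D⁻¹ i k • w k
  have hu : ∀ i l, b.repr (u0 i : V) l = (D⁻¹ * W) i l := by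
    intro i l
    rw [Matrix.mul_apply]
    simp only [u0, Submodule.coe_sum, Submodule.coe_smul, map_sum, map_smul,
      Finsupp.finsetSum_apply, Finsupp.smul_apply, smul_eq_mul]
    rfl
  have hδ : ∀ i j, b.repr (u0 i : V) (s j) = if i = j then 1 else 0 := by
    intro i j
    rw [hu]
    have h1 : (D⁻¹ * W) i (s j) = (D⁻¹ * D) i j := by
      simp [Matrix.mul_apply, hD]
    rw [h1, Matrix.nonsing_inv_mul _ (isUnit_iff_ne_zero.mpr hD0), Matrix.one_apply]
  have hnorm : ∀ i l, ‖b.repr (u0 i : V) l‖ ≤ 1 := by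
    intro i l
    rw [hu]
    have h1 : (D⁻¹ * W) i l = D.det⁻¹ * (W.submatrix id (Function.update s i l)).det := by
      have h2 : (D⁻¹ * W) i l = (D⁻¹.mulVec (W.col l)) i := by
        simp [Matrix.mul_apply, Matrix.mulVec, dotProduct]
      rw [h2, Matrix.inv_def, Matrix.smul_mulVec, ← Matrix.cramer_eq_adjugate_mulVec,
        Pi.smul_apply, Matrix.cramer_apply, smul_eq_mul, Ring.inverse_eq_inv']
      congr 2
      ext a c
      by_cases hc : c = i
      · subst hc
        simp
      · simp [hc, hD]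
    rw [h1, norm_mul, norm_inv]
    have h3 : 0 < ‖D.det‖ := norm_pos_iff.mpr hD0
    rw [inv_mul_le_one₀ h3]
    exact hs _
  have hli : LinearIndependent K u0 := by
    rw [Fintype.linearIndependent_iff]
    intro g hg j
    have h1 : b.repr ((∑ i, g i • u0 i : S) : V) (s j) = g j := by
      simp only [Submodule.coe_sum, Submodule.coe_smul, map_sum, map_smul,
        Finsupp.finsetSum_apply, Finsupp.smul_apply, smul_eq_mul, hδ]
      simp
    rw [hg] at h1
    simpa using h1.symm
  have hfin : Module.finrank K S = d := by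
    rw [Module.finrank_eq_card_basis w, Fintype.card_fin]
  let u : Basis (Fin d) K S := basisOfLinearIndependentOfCardEqFinrank hli
    (by rw [hfin, Fintype.card_fin])
  have hu' : ∀ i, u i = u0 i := by
    intro i
    simp [u]
  refine ⟨u, s, ?_, ?_⟩
  · intro i j; rw [hu', hδ]
  · intro i l; rw [hu']; exact hnorm i l

theorem det_norm_le [IsUltrametricDist K] {d : ℕ} (C : Matrix (Fin d) (Fin d) K) (r : Fin d → ℝ)
    (hr : ∀ i, 0 ≤ r i) (h : ∀ i j, ‖C i j‖ ≤ r i) : ‖C.det‖ ≤ ∏ i, r i := by
  classical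
  rw [Matrix.det_apply]
  apply IsUltrametricDist.norm_sum_le_of_forall_le_of_nonneg
  · exact Finset.prod_nonneg fun i _ => hr i
  · intro τ _
    have h1 : ‖Equiv.Perm.sign τ • ∏ i, C (τ i) i‖ = ‖∏ i, C (τ i) i‖ := by
      rcases Int.units_eq_one_or (Equiv.Perm.sign τ) with h | h
      · rw [h, one_smul]
      · rw [h, Units.neg_smul, one_smul, norm_neg]
    rw [h1, norm_prod]
    calc ∏ i, ‖C (τ i) i‖ ≤ ∏ i, r (τ i) :=
          Finset.prod_le_prod (fun i _ => norm_nonneg _) (fun i _ => h _ _)
      _ = ∏ i, r i := Equiv.prod_comp τ r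

theorem hodge_bound [IsUltrametricDist K] {σ : K →+* K} (hσn : ∀ x, ‖σ x‖ = ‖x‖)
    (φ : V →ₛₗ[σ] V) {n : ℕ} (b : Basis (Fin n) K V) (h : ℕ) (ρ : ℝ) (hρ0 : 0 < ρ) (hρ1 : ρ < 1)
    (hb : ∀ i j, ‖semMat φ b i j‖ ≤ if (i : ℕ) < h then 1 else ρ)
    (S : Submodule K V) (hS : ∀ x ∈ S, φ x ∈ S) {d : ℕ} (w : Basis (Fin d) K S) :
    ∃ u : Basis (Fin d) K S, ‖(semMat (φ.restrict hS) u).det‖ ≤ ρ ^ (d - h) := by
  classical
  obtain ⟨u, s, hδ, hn⟩ := exists_good_basis b S w
  refine ⟨u, ?_⟩
  have hinj : Function.Injective s := by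
    intro i j hij
    by_contra hne
    have h1 := hδ i i
    have h2 := hδ i j
    rw [hij, h2] at h1
    simp [hne] at h1
  have hrepr : ∀ (y : S) (j : Fin d), u.repr y j = b.repr (y : V) (s j) := by
    intro y j
    conv_rhs => rw [← u.sum_repr y]
    simp only [Submodule.coe_sum, Submodule.coe_smul, map_sum, map_smul,
      Finsupp.finsetSum_apply, Finsupp.smul_apply, smul_eq_mul, hδ]
    simp
  have hentry : ∀ j i, ‖semMat (φ.restrict hS) u j i‖ ≤ if (s j : ℕ) < h then 1 else ρ := by
    intro j i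
    have h1 : semMat (φ.restrict hS) u j i = b.repr (φ (u i : V)) (s j) := by
      unfold semMat
      rw [hrepr, LinearMap.coe_restrict_apply]
    rw [h1, repr_semi]
    apply IsUltrametricDist.norm_sum_le_of_forall_le_of_nonneg
    · split
      · exact zero_le_one
      · exact hρ0.le
    · intro l _
      rw [norm_mul, hσn]
      calc ‖semMat φ b (s j) l‖ * ‖b.repr (u i : V) l‖ ≤ ‖semMat φ b (s j) l‖ * 1 :=
            mul_le_mul_of_nonneg_left (hn i l) (norm_nonneg _)
        _ ≤ _ := by rw [mul_one]; exact hb _ _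
  have hdet := det_norm_le (semMat (φ.restrict hS) u) (fun j => if (s j : ℕ) < h then 1 else ρ)
    (fun j => by
      by_cases hj : (s j : ℕ) < h
      · simp [hj]
      · simp [hj, hρ0.le]) hentry
  refine hdet.trans ?_
  rw [Finset.prod_ite, Finset.prod_const_one, one_mul, Finset.prod_const]
  apply pow_le_pow_of_le_one hρ0.le hρ1.le
  have hcard : (Finset.univ.filter (fun j : Fin d => (s j : ℕ) < h)).card ≤ h := by
    have h1 : ((Finset.univ.filter (fun j : Fin d => (s j : ℕ) < h)).image
        (fun j => (s j : ℕ))) ⊆ Finset.range h := by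
      intro x hx
      simp only [Finset.mem_image, Finset.mem_filter, Finset.mem_univ, true_and] at hx
      obtain ⟨j, hj, rfl⟩ := hx
      exact Finset.mem_range.mpr hj
    have h2 := Finset.card_le_card h1
    rw [Finset.card_range, Finset.card_image_of_injective] at h2
    · exact h2
    · intro i j hij
      exact hinj (Fin.ext hij)
  have hsum := Finset.card_filter_add_card_filter_not (s := (Finset.univ : Finset (Fin d)))
    (fun j : Fin d => (s j : ℕ) < h)
  rw [Finset.card_univ, Fintype.card_fin] at hsum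
  omega

end Pool.Agent.WM85
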