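import Pool.Agent.LibWM85.Weights

namespace Pool.Agent.WM85

open Polynomial

theorem scale_eval {E : Type*} [Field E] (Q' : ℤ[X]) (c t : ℕ) (x : E) (hcE : (c : E) ≠ 0) :
    aeval x (Q'.scaleRoots ((c : ℤ) ^ t))
      = ((c : E) ^ t) ^ Q'.natDegree * aeval (x / (c : E) ^ t) Q' := by
  have h2 := scaleRoots_eval₂_mul (p := Q') (algebraMap ℤ E) (x / (c : E) ^ t) ((c : ℤ) ^ t)
  have h3 : (algebraMap ℤ E) ((c : ℤ) ^ t) = (c : E) ^ t := by simp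
  rw [h3, mul_div_cancel₀ _ (pow_ne_zero _ hcE)] at h2
  exact h2

theorem comp_eval {E : Type*} [Field E] (Q' : ℤ[X]) (c t : ℕ) (x : E) :
    aeval x (Q'.comp (C ((c : ℤ) ^ t) * X)) = aeval (x * (c : E) ^ t) Q' := by
  rw [aeval_comp, map_mul, aeval_C, aeval_X]
  have h3 : (algebraMap ℤ E) ((c : ℤ) ^ t) = (c : E) ^ t := by simp
  rw [h3, mul_comm]

theorem conj_scale {L : Type*} [Field L] [CharZero L] (Q' : ℤ[X]) (α : L) (c : ℕ) (hc : 0 < c)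
    (s : ℤ) (hβ : aeval (α / (c : L) ^ s) Q' = 0) (z : ℂ)
    (hz : ∀ R : ℤ[X], aeval α R = 0 → aeval z R = 0) : aeval (z / (c : ℂ) ^ s) Q' = 0 := by
  have hcL : (c : L) ≠ 0 := by exact_mod_cast hc.ne'
  have hcC : (c : ℂ) ≠ 0 := by exact_mod_cast hc.ne'
  rcases le_or_gt 0 s with hs | hs
  · obtain ⟨t, rfl⟩ := Int.eq_ofNat_of_zero_le hs
    rw [zpow_natCast] at hβ ⊢
    have h4 : aeval α (Q'.scaleRoots ((c : ℤ) ^ t)) = 0 := by
      rw [scale_eval Q' c t α hcL, hβ, mul_zero]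
    have h5 := hz _ h4
    rw [scale_eval Q' c t z hcC] at h5
    exact (mul_eq_zero.mp h5).resolve_left (pow_ne_zero _ (pow_ne_zero _ hcC))
  · obtain ⟨t, ht⟩ : ∃ t : ℕ, s = -(t : ℤ) := ⟨(-s).toNat, by omega⟩
    subst ht
    rw [zpow_neg, zpow_natCast, div_inv_eq_mul] at hβ ⊢
    have h4 : aeval α (Q'.comp (C ((c : ℤ) ^ t) * X)) = 0 := by
      rw [comp_eval, hβ]
    have h5 := hz _ h4
    rw [comp_eval] at h5
    exact h5

section complete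

variable {K L : Type*} [NontriviallyNormedField K] [CompleteSpace K] [IsUltrametricDist K]
  [CharZero K] [Field L] [Algebra K L] [Algebra.IsAlgebraic K L] [IsAlgClosed L]

theorem level_core {p : ℕ} (hp : p.Prime) (hp0 : 0 < ‖(p : K)‖) (hp1 : ‖(p : K)‖ < 1)
    {f r : ℕ} (hf : 0 < f) (P : ℤ[X]) (hP : P.Monic)
    (hw : ∀ Q : ℤ[X], Q.Monic → Irreducible Q → Q ∣ P →
      ∃ w : ℕ, ∀ z : ℂ, aeval z Q = 0 → ‖z‖ ^ 2 = (p : ℝ) ^ (f * w))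
    (hs : ∀ a : L, aeval a (P.map (Int.castRingHom K)) = 0 →
      ‖(p : K)‖ ^ (f * (r + 1)) ≤ spectralNorm K L a ∧ spectralNorm K L a ≤ ‖(p : K)‖ ^ (f * r))
    (α : L) (s : ℤ) (hα : aeval α (P.map (Int.castRingHom K)) = 0)
    (hβ : aeval (α / ((p : L) ^ f) ^ s) (P.map (Int.castRingHom K)) = 0)
    (hnt : s ≠ 0 ∨ ∀ m : ℕ, 0 < m → α ^ m ≠ ((p : L) ^ (f * r)) ^ m ∧
      α ^ m ≠ ((p : L) ^ (f * (r + 1))) ^ m)
    (z : ℂ) (hz : ∀ R : ℤ[X], aeval α R = 0 → aeval z R = 0) :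
    ‖z‖ ^ 2 = ((p : ℝ) ^ f) ^ (2 * (r : ℤ) + 1 + s) := by
  have : CharZero L := charZero_of_injective_algebraMap (algebraMap K L).injective
  have hpR : (1 : ℝ) < p := by exact_mod_cast hp.one_lt
  have hpR0 : (0 : ℝ) < p := by linarith
  have hconv : ∀ a : L, aeval a (P.map (Int.castRingHom K)) = aeval a P := by
    intro a
    have h1 : (Int.castRingHom K) = algebraMap ℤ K := RingHom.ext_int _ _
    rw [h1, aeval_map_algebraMap]
  rw [hconv] at hα hβ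
  have key : ∀ a : L, aeval a P = 0 → ∃ w : ℕ,
      (∀ z : ℂ, aeval z (minpoly ℤ a) = 0 → ‖z‖ ^ 2 = (p : ℝ) ^ (f * w)) ∧
      (w = 2 * r + 1 ∨ (w = 2 * r ∧ ∃ m : ℕ, 0 < m ∧ a ^ m = ((p : L) ^ (f * r)) ^ m) ∨
      (w = 2 * r + 2 ∧ ∃ m : ℕ, 0 < m ∧ a ^ m = ((p : L) ^ (f * (r + 1))) ^ m)) := by
    intro a ha
    have hint : IsIntegral ℤ a := ⟨P, hP, ha⟩
    have hdvd : minpoly ℤ a ∣ P := minpoly.isIntegrallyClosed_dvd hint ha
    obtain ⟨w, hw'⟩ := hw _ (minpoly.monic hint)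
      (minpoly.prime_of_isIntegrallyClosed hint).irreducible hdvd
    refine ⟨w, hw', weight_cases hp hp0 hp1 hf a hint w hw' ?_⟩
    intro b hb
    apply hs
    rw [hconv]
    obtain ⟨d, hd⟩ := hdvd
    rw [hd, map_mul, hb, zero_mul]
  obtain ⟨w, hw1, hw2⟩ := key α hα
  obtain ⟨w', hw1', hw2'⟩ := key _ hβ
  have hz1 := hw1 z (hz _ (minpoly.aeval ℤ α))
  have hz2 : aeval (z / (((p ^ f : ℕ) : ℂ)) ^ s)
      (minpoly ℤ (α / ((p : L) ^ f) ^ s)) = 0 := by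
    apply conj_scale _ α (p ^ f) (pow_pos hp.pos f) s _ z hz
    push_cast
    exact minpoly.aeval ℤ _
  have hz3 := hw1' _ hz2
  have hq0 : (0 : ℝ) < (p : ℝ) ^ f := pow_pos hpR0 f
  have hq1 : (1 : ℝ) < (p : ℝ) ^ f := one_lt_pow₀ hpR hf.ne'
  have hrel : (w : ℤ) = w' + 2 * s := by
    rw [norm_div, norm_zpow, div_pow, hz1] at hz3
    have h4 : ‖((p ^ f : ℕ) : ℂ)‖ = (p : ℝ) ^ f := by
      rw [Complex.norm_natCast]; push_cast; rfl
    rw [h4, div_eq_iff (pow_ne_zero _ (zpow_ne_zero _ hq0.ne')), pow_mul, pow_mul,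
      ← zpow_natCast ((p : ℝ) ^ f) w, ← zpow_natCast ((p : ℝ) ^ f) w',
      ← zpow_natCast (((p : ℝ) ^ f) ^ s) 2, ← zpow_mul, ← zpow_add₀ hq0.ne'] at hz3
    have h5 := (zpow_right_injective₀ hq0 hq1.ne') hz3
    push_cast at h5
    linarith
  have hfin : (w : ℤ) = 2 * (r : ℤ) + 1 + s := by
    by_cases hs0 : s = 0
    · have hnt' := hnt.resolve_left (fun h => h hs0)
      rcases hw2 with h | ⟨_, m, hm, hm'⟩ | ⟨_, m, hm, hm'⟩
      · omega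
      · exact absurd hm' (hnt' m hm).1
      · exact absurd hm' (hnt' m hm).2
    · have h1 : 2 * r ≤ w ∧ w ≤ 2 * r + 2 := by
        rcases hw2 with h | ⟨h, _⟩ | ⟨h, _⟩ <;> omega
      have h2 : 2 * r ≤ w' ∧ w' ≤ 2 * r + 2 := by
        rcases hw2' with h | ⟨h, _⟩ | ⟨h, _⟩ <;> omega
      omega
  rw [← hfin, hz1, zpow_natCast, pow_mul]

end complete

end Pool.Agent.WM85
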