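import Pool.Agent.LibWM85.Defs

namespace Pool.Agent.WM85

open Polynomial Module

section charpoly

variable {K V : Type*} [Field K] [AddCommGroup V] [Module K V] [FiniteDimensional K V]

open Module.Basis in
theorem charpoly_mul (W : Submodule K V) (e : V →ₗ[K] V) (he : W ≤ W.comap e) :
    e.charpoly = (e.restrict he).charpoly * (W.mapQ W e he).charpoly := by
  classical
  let m := Module.Free.ChooseBasisIndex K W
  let bW : Basis m K W := Module.Free.chooseBasis K W
  let n := Module.Free.ChooseBasisIndex K (V ⧸ W)
  let bQ : Basis n K (V ⧸ W) := Module.Free.chooseBasis K (V ⧸ W)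
  let b := sumQuot bW bQ
  let A : Matrix m m K := LinearMap.toMatrix bW bW (e.restrict he)
  let B : Matrix m n K := Matrix.of fun i l ↦
    ((sumQuot bW bQ).repr (e ((sumQuot bW bQ) (Sum.inr l)))) (Sum.inl i)
  let D : Matrix n n K := LinearMap.toMatrix bQ bQ (W.mapQ W e he)
  suffices LinearMap.toMatrix b b e = Matrix.fromBlocks A B 0 D by
    rw [← LinearMap.charpoly_toMatrix e b, this, ← LinearMap.charpoly_toMatrix _ bW,
      ← LinearMap.charpoly_toMatrix _ bQ, Matrix.charpoly_fromBlocks_zero₂₁]
  ext u v
  cases u with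
  | inl i =>
    cases v with
    | inl k =>
      simp only [b, sumQuot_inl, Matrix.fromBlocks_apply₁₁, A, LinearMap.toMatrix_apply]
      apply sumQuot_repr_inl_of_mem
    | inr l => simp [b, LinearMap.toMatrix_apply, Matrix.fromBlocks_apply₁₂, B]
  | inr j =>
    cases v with
    | inl k =>
      suffices W.mkQ (e (bW k)) = 0 by simp [LinearMap.toMatrix_apply, b, this]
      rw [← LinearMap.mem_ker, Submodule.ker_mkQ]
      exact he (Submodule.coe_mem (bW k))
    | inr l =>
      simp only [LinearMap.toMatrix_apply, sumQuot_repr_inr,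
        Matrix.fromBlocks_apply₂₂, b, D]
      rw [← sumQuot_inr bW bQ l, W.mapQ_apply]
      simp

theorem charOn_eq (F : V →ₗ[K] V) {S : Submodule K V} (h : S ≤ S.comap F) :
    charOn F S = (F.restrict h).charpoly := by
  unfold charOn
  rw [dif_pos h]

theorem charOn_monic (F : V →ₗ[K] V) (S : Submodule K V) : (charOn F S).Monic := by
  unfold charOn
  split
  · exact LinearMap.charpoly_monic _
  · exact monic_one

theorem charOn_mul (F : V →ₗ[K] V) {S : Submodule K V} (h : S ≤ S.comap F) :
    F.charpoly = charOn F S * (S.mapQ S F h).charpoly := by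
  rw [charOn_eq F h, charpoly_mul S F h]

theorem charOn_dvd_charOn (F : V →ₗ[K] V) {S T : Submodule K V} (hS : S ≤ S.comap F)
    (hT : T ≤ T.comap F) (hST : S ≤ T) : charOn F S ∣ charOn F T := by
  classical
  rw [charOn_eq F hS, charOn_eq F hT]
  set G := F.restrict hT with hG
  set S' : Submodule K T := S.comap T.subtype with hS'
  have h' : S' ≤ S'.comap G := by
    intro x hx
    simp only [hS', Submodule.mem_comap, Submodule.subtype_apply] at hx ⊢
    exact hS hx
  have key : (G.restrict h').charpoly = (F.restrict hS).charpoly := by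
    let e : S' ≃ₗ[K] S := Submodule.comapSubtypeEquivOfLe hST
    have : F.restrict hS = e.conj (G.restrict h') := by
      ext x
      simp [e, LinearEquiv.conj_apply, hG, Submodule.comapSubtypeEquivOfLe]
    rw [this, LinearEquiv.charpoly_conj]
  rw [← key, charpoly_mul S' G h']
  exact dvd_mul_right _ _

end charpoly

section dual

/-- if `A G = c` then the multiplicity of `α` for `G` is that of `c / α` for `A`. -/
theorem mult_inv_aux {L : Type*} [Field L] {n : ℕ} (A G : Matrix (Fin n) (Fin n) L) (c α : L)
    (hc : c ≠ 0) (hα : α ≠ 0) (h : A * G = c • (1 : Matrix (Fin n) (Fin n) L)) :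
    G.charpoly.rootMultiplicity α = A.charpoly.rootMultiplicity (c / α) := by
  classical
  have h2 : G * A = c • (1 : Matrix (Fin n) (Fin n) L) := by
    have h3 : (c⁻¹ • A) * G = 1 := by
      rw [Matrix.smul_mul, h, smul_smul, inv_mul_cancel₀ hc, one_smul]
    have h4 : G * (c⁻¹ • A) = 1 := mul_eq_one_comm.mp h3
    rw [Matrix.mul_smul] at h4
    calc G * A = c • (c⁻¹ • (G * A)) := by rw [smul_smul, mul_inv_cancel₀ hc, one_smul]
      _ = _ := by rw [h4]
  rw [← Matrix.charpoly_toLin', ← Matrix.charpoly_toLin' A,
    ← LinearMap.finrank_maxGenEigenspace_eq, ← LinearMap.finrank_maxGenEigenspace_eq]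
  suffices hs : Module.End.maxGenEigenspace (Matrix.toLin' G) α
      = Module.End.maxGenEigenspace (Matrix.toLin' A) (c / α) by rw [hs]
  have hAG : (Matrix.toLin' A) * (Matrix.toLin' G) = c • (1 : Module.End L (Fin n → L)) := by
    have := congrArg Matrix.toLin' h
    rw [Matrix.toLin'_mul] at this
    rw [Module.End.mul_eq_comp, this]
    simp [Module.End.one_eq_id]
  have hGA : (Matrix.toLin' G) * (Matrix.toLin' A) = c • (1 : Module.End L (Fin n → L)) := by
    have := congrArg Matrix.toLin' h2
    rw [Matrix.toLin'_mul] at this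
    rw [Module.End.mul_eq_comp, this]
    simp [Module.End.one_eq_id]
  generalize Matrix.toLin' A = a at *
  generalize Matrix.toLin' G = g at *
  have hinj : ∀ k : ℕ, ∀ v, (a ^ k) v = 0 → v = 0 := by
    have h1 : ∀ v, a v = 0 → v = 0 := by
      intro v hv
      have : (g * a) v = c • v := by rw [hGA]; simp
      rw [Module.End.mul_apply, hv, map_zero] at this
      exact (smul_eq_zero.mp this.symm).resolve_left hc
    intro k
    induction k with
    | zero => intro v hv; simpa using hv
    | succ k ih =>
      intro v hv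
      rw [pow_succ, Module.End.mul_apply] at hv
      exact h1 v (ih _ hv)
  have hcomm : Commute a (g - α • (1 : Module.End L (Fin n → L))) := by
    unfold Commute SemiconjBy
    rw [mul_sub, sub_mul, hAG, hGA]
    simp
  have hkey : a * (g - α • (1 : Module.End L (Fin n → L)))
      = (-α) • (a - (c / α) • (1 : Module.End L (Fin n → L))) := by
    rw [mul_sub, hAG, smul_sub, smul_smul]
    rw [show -α * (c / α) = -c by field_simp]
    ext v i
    simp
    ring
  have hkeyk : ∀ k : ℕ, a ^ k * (g - α • (1 : Module.End L (Fin n → L))) ^ k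
      = (-α) ^ k • (a - (c / α) • (1 : Module.End L (Fin n → L))) ^ k := by
    intro k
    rw [← hcomm.mul_pow, hkey, _root_.smul_pow]
  have hpow : ∀ k : ℕ, (-α) ^ k ≠ 0 := fun k => pow_ne_zero _ (neg_ne_zero.mpr hα)
  ext v
  simp only [Module.End.mem_maxGenEigenspace]
  constructor
  · rintro ⟨k, hk⟩
    refine ⟨k, ?_⟩
    have := congrArg (fun T : Module.End L (Fin n → L) => T v) (hkeyk k)
    simp only [Module.End.mul_apply, LinearMap.smul_apply] at this
    rw [hk, map_zero] at this
    exact (smul_eq_zero.mp this.symm).resolve_left (hpow k)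
  · rintro ⟨k, hk⟩
    refine ⟨k, ?_⟩
    have := congrArg (fun T : Module.End L (Fin n → L) => T v) (hkeyk k)
    simp only [Module.End.mul_apply, LinearMap.smul_apply] at this
    rw [hk, smul_zero] at this
    exact hinj k _ this

/-- the same for endomorphisms over a subfield -/
theorem mult_inv {K L D : Type*} [Field K] [Field L] [Algebra K L] [AddCommGroup D] [Module K D]
    [FiniteDimensional K D] (A G : D →ₗ[K] D) (c : K) (α : L) (hc : c ≠ 0) (hα : α ≠ 0)
    (h : A ∘ₗ G = c • LinearMap.id) :
    (G.charpoly.map (algebraMap K L)).rootMultiplicity α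
      = (A.charpoly.map (algebraMap K L)).rootMultiplicity (algebraMap K L c / α) := by
  classical
  let b := Module.finBasis K D
  rw [← LinearMap.charpoly_toMatrix G b, ← LinearMap.charpoly_toMatrix A b,
    ← Matrix.charpoly_map, ← Matrix.charpoly_map]
  apply mult_inv_aux _ _ _ _ _ hα
  · have h1 : (LinearMap.toMatrix b b A) * (LinearMap.toMatrix b b G)
        = c • (1 : Matrix _ _ K) := by
      rw [← LinearMap.toMatrix_comp, h]
      simp
    have h2 := congrArg (fun M : Matrix _ _ K => M.map (algebraMap K L)) h1
    simp only [Matrix.map_mul] at h2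
    rw [h2]
    ext i j
    by_cases hij : i = j
    · simp [hij]
    · simp [hij]
  · intro h0
    exact hc ((algebraMap K L).injective (by rw [h0, map_zero]))

theorem charpoly_dualMap' {K D : Type*} [Field K] [AddCommGroup D] [Module K D]
    [FiniteDimensional K D] (A : D →ₗ[K] D) : (A.dualMap).charpoly = A.charpoly := by
  classical
  let b := Module.finBasis K D
  rw [← LinearMap.charpoly_toMatrix _ b.dualBasis, ← LinearMap.charpoly_toMatrix _ b]
  rw [LinearMap.dualMap_def, LinearMap.toMatrix_transpose, Matrix.charpoly_transpose]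

/-- duality: the multiplicity of `α` on `V / I^⊥` is that of `c / α` on `I`. -/
theorem mult_orthogonal {K L V : Type*} [Field K] [Field L] [Algebra K L] [AddCommGroup V]
    [Module K V] [FiniteDimensional K V] (F : V →ₗ[K] V) (β : LinearMap.BilinForm K V)
    (hβ : β.Nondegenerate) (hs : β.IsRefl) (c : K) (hc : c ≠ 0)
    (hF : ∀ x y, β (F x) (F y) = c * β x y)
    (I : Submodule K V) (hI : I ≤ I.comap F) (hI' : β.orthogonal I ≤ (β.orthogonal I).comap F)
    (α : L) (hα : α ≠ 0) :
    (((β.orthogonal I).mapQ (β.orthogonal I) F hI').charpoly.map (algebraMap K L)).rootMultiplicity α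
      = ((charOn F I).map (algebraMap K L)).rootMultiplicity (algebraMap K L c / α) := by
  classical
  -- the map x ↦ β(x, .)|_I
  let D : V →ₗ[K] Module.Dual K I := (I.subtype.dualMap) ∘ₗ β
  have hD : ∀ x (y : I), D x y = β x y := fun x y => rfl
  have hker : LinearMap.ker D = β.orthogonal I := by
    ext x
    rw [LinearMap.mem_ker, LinearMap.BilinForm.mem_orthogonal_iff]
    constructor
    · intro h y hy
      have h1 : D x ⟨y, hy⟩ = 0 := by rw [h]; rfl
      rw [hD] at h1
      show β y x = 0
      exact hs _ _ h1
    · intro h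
      ext y
      rw [hD]
      have h1 : β (y : V) x = 0 := h y y.2
      exact hs _ _ h1
  have hsurj : Function.Surjective D := by
    have h1 : Function.Surjective (I.subtype.dualMap) :=
      LinearMap.dualMap_surjective_of_injective (Submodule.injective_subtype I)
    have h2 : Function.Surjective β := by
      have hinj : Function.Injective β := by
        rw [← LinearMap.ker_eq_bot]
        exact hβ.ker_eq_bot
      exact (LinearMap.injective_iff_surjective_of_finrank_eq_finrank
        (Subspace.dual_finrank_eq).symm).mp hinj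
    exact h1.comp h2
  let e : (V ⧸ β.orthogonal I) ≃ₗ[K] Module.Dual K I :=
    (Submodule.quotEquivOfEq _ _ hker.symm).trans (D.quotKerEquivOfSurjective hsurj)
  have he : ∀ x : V, e (Submodule.Quotient.mk x) = D x := by
    intro x
    simp [e]
  have hes : ∀ x : V, e.symm (D x) = Submodule.Quotient.mk x := by
    intro x
    rw [← he, LinearEquiv.symm_apply_apply]
  set Q := (β.orthogonal I).mapQ (β.orthogonal I) F hI' with hQ
  rw [← LinearEquiv.charpoly_conj e Q]
  have hG : ∀ x : V, (e.conj Q) (D x) = D (F x) := by
    intro x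
    rw [LinearEquiv.conj_apply_apply, hes, hQ, Submodule.mapQ_apply, he]
  rw [charOn_eq F hI, ← charpoly_dualMap' (F.restrict hI)]
  apply mult_inv _ _ c α hc hα
  apply LinearMap.ext
  intro T
  obtain ⟨x, rfl⟩ := hsurj T
  ext y
  rw [LinearMap.comp_apply, hG, LinearMap.dualMap_apply, hD]
  simp only [LinearMap.smul_apply, LinearMap.id_apply, smul_eq_mul]
  rw [hD, LinearMap.coe_restrict_apply, hF]

end dual

end Pool.Agent.WM85
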