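import Mathlib

namespace Pool.Agent.WM85

variable {K V : Type*} [Field K] [AddCommGroup V] [Module K V]

/-- `M` is the monodromy filtration of `N`: it is increasing, separated and exhaustive,
`N (M s) ⊆ M (s - 2)`, and `N ^ s` induces an isomorphism `gr_s → gr_{-s}` for all `s ≥ 0`, where
`gr_s = M s / M (s - 1)`. -/
structure IsMono (N : Module.End K V) (M : ℤ → Submodule K V) : Prop where
  mono : ∀ s, M (s - 1) ≤ M s
  bot : ∃ s, M s = ⊥
  top : ∃ s, M s = ⊤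
  shift : ∀ s, ∀ x ∈ M s, N x ∈ M (s - 2)
  inj : ∀ s : ℕ, ∀ x ∈ M s, (N ^ s) x ∈ M (-s - 1) → x ∈ M (s - 1)
  surj : ∀ s : ℕ, ∀ y ∈ M (-s), ∃ x ∈ M s, y - (N ^ s) x ∈ M (-s - 1)

end Pool.Agent.WM85
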