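import Pool.Agent.LibWM85.Lin

namespace Pool.Agent.WM85

open Polynomial Module

section prim

variable {K V : Type*} [Field K] [AddCommGroup V] [Module K V] [FiniteDimensional K V]

/-- a root of the characteristic polynomial is a root of every annihilating polynomial -/
theorem root_of_aeval_eq_zero {L : Type*} [Field L] [Algebra K L] (G : V →ₗ[K] V) (B : K[X])
    (hB : aeval G B = 0) (α : L) (h : (G.charpoly.map (algebraMap K L)).IsRoot α) :
    aeval α B = 0 := by
  classical
  let b := Module.finBasis K V
  set M := LinearMap.toMatrix b b G with hM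
  have h1 : aeval M B = 0 := by
    have h2 : LinearMap.toMatrixAlgEquiv b G = M := rfl
    rw [← h2]
    have h3 := (aeval_algHom_apply (LinearMap.toMatrixAlgEquiv b).toAlgHom G B)
    rw [hB, map_zero] at h3
    exact h3
  have h4 : aeval (M.map (algebraMap K L)) (B.map (algebraMap K L)) = 0 := by
    have h5 : ((algebraMap K L).mapMatrix (aeval M B) : Matrix _ _ L)
        = aeval (M.map (algebraMap K L)) (B.map (algebraMap K L)) := by
      rw [aeval_map_algebraMap]
      have := aeval_algHom_apply ((Algebra.ofId K L).mapMatrix) M B
      exact this.symm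
    rw [← h5, h1, map_zero]
  rw [← LinearMap.charpoly_toMatrix G b, ← Matrix.charpoly_map, ← Matrix.charpoly_toLin',
    ← Module.End.hasEigenvalue_iff_isRoot_charpoly] at h
  obtain ⟨v, hv⟩ := h.exists_hasEigenvector
  have h6 := Module.End.aeval_apply_of_hasEigenvector (p := B.map (algebraMap K L)) hv
  have h7 : aeval (Matrix.toLin' (M.map (algebraMap K L))) (B.map (algebraMap K L)) = 0 := by
    have := aeval_algHom_apply (Matrix.toLinAlgEquiv' (R := L)).toAlgHom
      (M.map (algebraMap K L)) (B.map (algebraMap K L))
    rw [h4, map_zero] at this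
    exact this
  rw [h7] at h6
  have h8 := hv.2
  have h9 : eval α (B.map (algebraMap K L)) • v = 0 := by
    rw [← h6]; rfl
  have h10 := (smul_eq_zero.mp h9).resolve_right h8
  rwa [eval_map_algebraMap] at h10

theorem coprime_charpoly (G : V →ₗ[K] V) (A B : K[X]) (hB : aeval G B = 0)
    (hAB : IsCoprime A B) : IsCoprime G.charpoly A := by
  rw [isCoprime_iff_aeval_ne_zero_of_isAlgClosed K (AlgebraicClosure K)] at hAB ⊢
  intro a
  by_cases h : aeval a G.charpoly = 0
  · right
    have h1 : aeval a B = 0 := by
      apply root_of_aeval_eq_zero G B hB a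
      rw [IsRoot.def, eval_map_algebraMap, h]
    exact (hAB a).resolve_right (fun h2 => h2 h1)
  · left; exact h

omit [FiniteDimensional K V] in
theorem ker_aeval_stable (F : V →ₗ[K] V) (B : K[X]) :
    LinearMap.ker (aeval F B) ≤ (LinearMap.ker (aeval F B)).comap F := by
  intro x hx
  rw [Submodule.mem_comap, LinearMap.mem_ker]
  have h1 : aeval F B * F = F * aeval F B := by
    have := (Algebra.commutes' (R := K[X]) (A := K[X]) X B)
    have h2 : aeval F (B * X) = aeval F (X * B) := by rw [mul_comm]
    simpa using h2
  have h3 : (aeval F B) (F x) = F ((aeval F B) x) := by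
    have := congrArg (fun T : Module.End K V => T x) h1
    simpa [Module.End.mul_apply] using this
  rw [h3, LinearMap.mem_ker.mp hx, map_zero]

omit [FiniteDimensional K V] in
theorem aeval_restrict (F : V →ₗ[K] V) {S : Submodule K V} (h : S ≤ S.comap F) (B : K[X])
    (x : S) : ((aeval (F.restrict h) B) x : V) = aeval F B x := by
  induction B using Polynomial.induction_on' with
  | add p q hp hq => simp [map_add, hp, hq]
  | monomial n a =>
    simp only [aeval_monomial, Module.End.mul_apply, Module.algebraMap_end_apply,
      Submodule.coe_smul]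
    congr 1
    induction n with
    | zero => simp
    | succ n ih =>
      rw [pow_succ', pow_succ', Module.End.mul_apply, Module.End.mul_apply, ← ih]
      rfl

theorem charOn_ker (F : V →ₗ[K] V) (A B : K[X]) (hA : A.Monic) (hB : B.Monic)
    (hAB : IsCoprime A B) (h : F.charpoly = A * B) :
    charOn F (LinearMap.ker (aeval F B)) = B := by
  classical
  have hz : aeval F (A * B) = 0 := by rw [← h]; exact F.aeval_self_charpoly
  have hS := ker_aeval_stable F B
  have hT := ker_aeval_stable F A
  set S := LinearMap.ker (aeval F B) with hSd
  set T := LinearMap.ker (aeval F A) with hTd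
  have hcompl : IsCompl S T := by
    constructor
    · rw [hSd, hTd]
      exact (disjoint_ker_aeval_of_isCoprime F hAB).symm
    · rw [codisjoint_iff, hSd, hTd, sup_comm, sup_ker_aeval_eq_ker_aeval_mul_of_coprime F hAB, hz]
      exact LinearMap.ker_zero
  have hprod : F.charpoly = charOn F S * charOn F T := by
    rw [charOn_eq F hS, charOn_eq F hT]
    set F1 := LinearMap.restrict (p := S) (q := S) F hS
    set F2 := LinearMap.restrict (p := T) (q := T) F hT
    let e := Submodule.prodEquivOfIsCompl S T hcompl
    have hψ : F1.prodMap F2 = e.symm.conj F := by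
      apply LinearMap.ext
      intro x
      rw [LinearEquiv.conj_apply_apply, LinearEquiv.symm_symm]
      apply e.injective
      rw [LinearEquiv.apply_symm_apply]
      simp [e, F1, F2]
    rw [← e.symm.charpoly_conj F, ← hψ, LinearMap.charpoly_prodMap]
  have hSB : aeval (LinearMap.restrict (p := S) (q := S) F hS) B = 0 := by
    ext x
    rw [aeval_restrict]
    simpa using x.2
  have hTA : aeval (LinearMap.restrict (p := T) (q := T) F hT) A = 0 := by
    ext x
    rw [aeval_restrict]
    simpa using x.2
  have h1 : IsCoprime (charOn F S) A := by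
    rw [charOn_eq F hS]
    exact coprime_charpoly _ A B hSB hAB
  have h2 : IsCoprime (charOn F T) B := by
    rw [charOn_eq F hT]
    exact coprime_charpoly _ B A hTA hAB.symm
  have h3 : charOn F S ∣ B := by
    have : charOn F S ∣ A * B := by rw [← h, hprod]; exact dvd_mul_right _ _
    exact h1.dvd_of_dvd_mul_left this
  have h4 : charOn F T ∣ A := by
    have : charOn F T ∣ A * B := by rw [← h, hprod]; exact dvd_mul_left _ _
    exact h2.dvd_of_dvd_mul_right this
  have h5 : (charOn F S).natDegree ≤ B.natDegree := natDegree_le_of_dvd h3 hB.ne_zero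
  have h6 : (charOn F T).natDegree ≤ A.natDegree := natDegree_le_of_dvd h4 hA.ne_zero
  have h7 : (charOn F S).natDegree + (charOn F T).natDegree = A.natDegree + B.natDegree := by
    rw [← (charOn_monic F S).natDegree_mul (charOn_monic F T), ← hprod, h, hA.natDegree_mul hB]
  exact (eq_of_monic_of_dvd_of_natDegree_le (charOn_monic F S) hB h3 (by omega)).symm

end prim

end Pool.Agent.WM85
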