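import Mathlib

namespace Pool.Agent.WM85

open Polynomial

section split

variable {K : Type*} [Field K]

/-- the defect of a monic polynomial with respect to `ord` and the slope `f` -/
def delta (ord : K → ℤ) (f : ℕ) (G : K[X]) : ℤ := (f : ℤ) * G.natDegree - ord (G.coeff 0)

/-- multiplicativity assumptions on ord -/
structure OrdHyp (ord : K → ℤ) : Prop where
  mul : ∀ x y, x ≠ 0 → y ≠ 0 → ord (x * y) = ord x + ord y

variable {ord : K → ℤ} (ho : OrdHyp ord) (f : ℕ)

include ho in
theorem OrdHyp.one : ord 1 = 0 := by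
  have := ho.mul 1 1 one_ne_zero one_ne_zero
  rw [mul_one] at this
  omega

include ho in
theorem delta_one : delta ord f (1 : K[X]) = 0 := by
  unfold delta
  simp [ho.one]

include ho in
theorem delta_mul {A B : K[X]} (hA : A.Monic) (hB : B.Monic) (hA0 : A.coeff 0 ≠ 0)
    (hB0 : B.coeff 0 ≠ 0) : delta ord f (A * B) = delta ord f A + delta ord f B := by
  unfold delta
  rw [hA.natDegree_mul hB, mul_coeff_zero, ho.mul _ _ hA0 hB0]
  push_cast
  ring

/-- all irreducible factors have positive defect -/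
def AllBig (ord : K → ℤ) (f : ℕ) (B : K[X]) : Prop :=
  ∀ π : K[X], π.Monic → Irreducible π → π ∣ B → 0 < delta ord f π

/-- no irreducible factor has positive defect -/
def NoBig (ord : K → ℤ) (f : ℕ) (A : K[X]) : Prop :=
  ∀ π : K[X], π.Monic → Irreducible π → π ∣ A → ¬ 0 < delta ord f π

theorem monic_irr_eq {π ρ : K[X]} (h1 : π.Monic) (h2 : ρ.Monic) (hπ : Irreducible π)
    (hρ : Irreducible ρ) (h : π ∣ ρ) : π = ρ :=
  eq_of_monic_of_associated h1 h2 (hπ.associated_of_dvd hρ h)

theorem exists_monic_irr {G : K[X]} (hG : G.Monic) (h1 : G ≠ 1) :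
    ∃ π : K[X], π.Monic ∧ Irreducible π ∧ π ∣ G := by
  have hu : ¬ IsUnit G := fun h => h1 (hG.eq_one_of_isUnit h)
  obtain ⟨g, hg1, hg2⟩ := exists_monic_irreducible_factor G hu
  exact ⟨g, hg1, hg2.1, hg2.2⟩

theorem exists_split (G : K[X]) (hG : G.Monic) :
    ∃ A B : K[X], A.Monic ∧ B.Monic ∧ G = A * B ∧ NoBig ord f A ∧ AllBig ord f B := by
  suffices H : ∀ n : ℕ, ∀ G : K[X], G.Monic → G.natDegree = n →
      ∃ A B : K[X], A.Monic ∧ B.Monic ∧ G = A * B ∧ NoBig ord f A ∧ AllBig ord f B from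
    H _ G hG rfl
  intro n
  induction n using Nat.strong_induction_on with
  | _ n ih =>
    intro G hG hn
    by_cases h1 : G = 1
    · refine ⟨1, 1, monic_one, monic_one, by rw [h1, one_mul], ?_, ?_⟩
      · intro π _ hi hd
        exact absurd (isUnit_of_dvd_one hd) hi.not_isUnit
      · intro π _ hi hd
        exact absurd (isUnit_of_dvd_one hd) hi.not_isUnit
    · obtain ⟨π, hπm, hπi, hπd⟩ := exists_monic_irr hG h1
      obtain ⟨G', hG'⟩ := hπd
      have hG'm : G'.Monic := hπm.of_mul_monic_left (hG' ▸ hG)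
      have hdeg : G'.natDegree < n := by
        have := hπm.natDegree_mul hG'm
        rw [← hG', hn] at this
        have h2 := hπi.natDegree_pos
        omega
      obtain ⟨A, B, hA, hB, hAB, hNo, hAll⟩ := ih _ hdeg G' hG'm rfl
      by_cases hb : 0 < delta ord f π
      · refine ⟨A, π * B, hA, hπm.mul hB, by rw [hG', hAB]; ring, hNo, ?_⟩
        intro ρ hρm hρi hρd
        rcases (hρi.prime.dvd_mul).mp hρd with h | h
        · rw [monic_irr_eq hρm hπm hρi hπi h]; exact hb
        · exact hAll ρ hρm hρi h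
      · refine ⟨π * A, B, hπm.mul hA, hB, by rw [hG', hAB]; ring, ?_, hAll⟩
        intro ρ hρm hρi hρd
        rcases (hρi.prime.dvd_mul).mp hρd with h | h
        · rw [monic_irr_eq hρm hπm hρi hπi h]; exact hb
        · exact hNo ρ hρm hρi h

theorem coprime_of_split {A B : K[X]} (hA : A.Monic) (hNo : NoBig ord f A)
    (hAll : AllBig ord f B) : IsCoprime A B := by
  classical
  rw [← EuclideanDomain.gcd_isUnit_iff]
  by_contra hu
  have hg0 : EuclideanDomain.gcd A B ≠ 0 := by
    intro h
    have := EuclideanDomain.gcd_dvd_left A B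
    rw [h, zero_dvd_iff] at this
    exact hA.ne_zero this
  obtain ⟨π, hπm, hπi, hπd⟩ := exists_monic_irreducible_factor _ hu
  exact hNo π hπm hπi (hπd.trans (EuclideanDomain.gcd_dvd_left A B))
    (hAll π hπm hπi (hπd.trans (EuclideanDomain.gcd_dvd_right A B)))

theorem split_unique {A B A' B' : K[X]} (hA : A.Monic) (hB : B.Monic) (hA' : A'.Monic)
    (hB' : B'.Monic) (hNo : NoBig ord f A) (hAll : AllBig ord f B) (hNo' : NoBig ord f A')
    (hAll' : AllBig ord f B') (h : A * B = A' * B') : B = B' := by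
  have h1 : B ∣ B' := by
    have : B ∣ A' * B' := by rw [← h]; exact dvd_mul_left _ _
    exact (coprime_of_split f hA' hNo' hAll).symm.dvd_of_dvd_mul_left this
  have h2 : B' ∣ B := by
    have : B' ∣ A * B := by rw [h]; exact dvd_mul_left _ _
    exact (coprime_of_split f hA hNo hAll').symm.dvd_of_dvd_mul_left this
  exact eq_of_monic_of_associated hB hB' (associated_of_dvd_dvd h1 h2)

theorem NoBig.mul {A A' : K[X]} (h : NoBig ord f A) (h' : NoBig ord f A') :
    NoBig ord f (A * A') := by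
  intro π hm hi hd
  rcases (hi.prime.dvd_mul).mp hd with h1 | h1
  · exact h π hm hi h1
  · exact h' π hm hi h1

theorem AllBig.mul {A A' : K[X]} (h : AllBig ord f A) (h' : AllBig ord f A') :
    AllBig ord f (A * A') := by
  intro π hm hi hd
  rcases (hi.prime.dvd_mul).mp hd with h1 | h1
  · exact h π hm hi h1
  · exact h' π hm hi h1

theorem AllBig.of_dvd {A A' : K[X]} (h : AllBig ord f A) (h' : A' ∣ A) :
    AllBig ord f A' := fun π hm hi hd => h π hm hi (hd.trans h')

include ho in
theorem delta_nonneg (B : K[X]) (hB : B.Monic) (hB0 : B.coeff 0 ≠ 0) (hAll : AllBig ord f B) :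
    0 ≤ delta ord f B := by
  suffices H : ∀ n : ℕ, ∀ B : K[X], B.Monic → B.coeff 0 ≠ 0 → AllBig ord f B →
      B.natDegree = n → 0 ≤ delta ord f B from H _ B hB hB0 hAll rfl
  intro n
  induction n using Nat.strong_induction_on with
  | _ n ih =>
    intro G hG hG0 hAll hn
    by_cases h1 : G = 1
    · rw [h1, delta_one ho]
    · obtain ⟨π, hπm, hπi, hπd⟩ := exists_monic_irr hG h1
      have hpos := hAll π hπm hπi hπd
      obtain ⟨G', hG'⟩ := hπd
      have hG'm : G'.Monic := hπm.of_mul_monic_left (hG' ▸ hG)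
      have hdeg : G'.natDegree < n := by
        have := hπm.natDegree_mul hG'm
        rw [← hG', hn] at this
        have h2 := hπi.natDegree_pos
        omega
      have h0 : π.coeff 0 ≠ 0 ∧ G'.coeff 0 ≠ 0 := by
        rw [hG', mul_coeff_zero] at hG0
        exact ⟨left_ne_zero_of_mul hG0, right_ne_zero_of_mul hG0⟩
      rw [hG', delta_mul ho f hπm hG'm h0.1 h0.2]
      have := ih _ hdeg G' hG'm h0.2 (hAll.of_dvd f (by rw [hG']; exact dvd_mul_left _ _)) rfl
      omega

include ho in
theorem le_delta (B π : K[X]) (hB : B.Monic) (hB0 : B.coeff 0 ≠ 0) (hAll : AllBig ord f B)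
    (hπm : π.Monic) (hπi : Irreducible π) (k : ℕ) (hk : π ^ k ∣ B) : (k : ℤ) ≤ delta ord f B := by
  obtain ⟨C, hC⟩ := hk
  have hCm : C.Monic := (hπm.pow k).of_mul_monic_left (hC ▸ hB)
  have h0 : (π ^ k).coeff 0 ≠ 0 ∧ C.coeff 0 ≠ 0 := by
    rw [hC, mul_coeff_zero] at hB0
    exact ⟨left_ne_zero_of_mul hB0, right_ne_zero_of_mul hB0⟩
  have hC' := delta_nonneg ho f C hCm h0.2 (hAll.of_dvd f (by rw [hC]; exact dvd_mul_left _ _))
  rw [hC, delta_mul ho f (hπm.pow k) hCm h0.1 h0.2]
  suffices h : ∀ j : ℕ, j ≤ k → (j : ℤ) ≤ delta ord f (π ^ j) by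
    have := h k le_rfl
    omega
  intro j hj
  induction j with
  | zero => rw [pow_zero, delta_one ho]; simp
  | succ j ih =>
    have hk0 : 0 < k := by omega
    have hπ0 : π.coeff 0 ≠ 0 := by
      intro h
      apply h0.1
      rw [coeff_zero_eq_eval_zero, eval_pow, ← coeff_zero_eq_eval_zero, h, zero_pow (by omega)]
    have hb : 0 < delta ord f π := by
      apply hAll π hπm hπi
      rw [hC]
      exact (dvd_pow_self π (by omega)).trans (dvd_mul_right _ _)
    rw [pow_succ, delta_mul ho f (hπm.pow j) hπm _ hπ0]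
    · have := ih (by omega)
      push_cast
      omega
    · rw [coeff_zero_eq_eval_zero, eval_pow, ← coeff_zero_eq_eval_zero]
      exact pow_ne_zero _ hπ0

end split

end Pool.Agent.WM85
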