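import Pool.Agent.LibWM85.Prim
import Pool.Agent.LibWM85.Split

namespace Pool.Agent.WM85

open Polynomial Module

section semi

variable {K V : Type*} [Field K] [AddCommGroup V] [Module K V]
  {σ : K →+* K} (φ : V →ₛₗ[σ] V) {n : ℕ} (b : Basis (Fin n) K V)

/-- the matrix of a semilinear map -/
noncomputable def semMat : Matrix (Fin n) (Fin n) K := fun i j => b.repr (φ (b j)) i

theorem repr_semi (x : V) (i : Fin n) :
    b.repr (φ x) i = ∑ j, semMat φ b i j * σ (b.repr x j) := by
  have hx : φ x = ∑ j, σ (b.repr x j) • φ (b j) := by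
    conv_lhs => rw [← b.sum_repr x]
    rw [map_sum]
    apply Finset.sum_congr rfl
    intro j _
    rw [map_smulₛₗ]
  rw [hx, map_sum, Finsupp.finsetSum_apply]
  apply Finset.sum_congr rfl
  intro j _
  rw [map_smul]
  simp [semMat, mul_comm]

/-- matrix of the iterates -/
noncomputable def itMat (m : ℕ) : Matrix (Fin n) (Fin n) K := fun i j => b.repr (φ^[m] (b j)) i

theorem itMat_zero : itMat φ b 0 = 1 := by
  ext i j
  simp [itMat, Matrix.one_apply, Finsupp.single_apply, eq_comm]

theorem itMat_succ (m : ℕ) : itMat φ b (m + 1) = semMat φ b * (itMat φ b m).map σ := by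
  ext i j
  rw [itMat, Function.iterate_succ_apply', repr_semi, Matrix.mul_apply]
  rfl

theorem det_itMat_succ (m : ℕ) :
    (itMat φ b (m + 1)).det = (semMat φ b).det * σ (itMat φ b m).det := by
  rw [itMat_succ, Matrix.det_mul]
  congr 1
  rw [← RingHom.mapMatrix_apply, ← RingHom.map_det]

variable (f : ℕ) (F : V →ₗ[K] V) (hF : ∀ x, F x = φ^[f] x)

include hF in
theorem toMatrix_eq_itMat : LinearMap.toMatrix b b F = itMat φ b f := by
  ext i j
  rw [LinearMap.toMatrix_apply, hF]
  rfl

include hF in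
theorem F_comm (x : V) : F (φ x) = φ (F x) := by
  rw [hF, hF]
  exact (Function.iterate_succ_apply φ f x).symm.trans (Function.iterate_succ_apply' φ f x)

include hF in
theorem mat_comm : LinearMap.toMatrix b b F * semMat φ b
    = semMat φ b * (LinearMap.toMatrix b b F).map σ := by
  ext i j
  have h1 : b.repr (F (φ (b j))) i = b.repr (φ (F (b j))) i := by rw [F_comm φ f F hF]
  have h2 : b.repr (F (φ (b j))) i = (LinearMap.toMatrix b b F * semMat φ b) i j := by
    rw [Matrix.mul_apply]
    have := congrFun (LinearMap.toMatrix_mulVec_repr b b F (φ (b j))) i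
    rw [← this, Matrix.mulVec, dotProduct]
    rfl
  rw [← h2, h1, repr_semi, Matrix.mul_apply]
  simp [LinearMap.toMatrix_apply]

variable {ord : K → ℤ} (ho : OrdHyp ord) (hoσ : ∀ x, ord (σ x) = ord x)

include hF ho hoσ in
theorem ord_det (hf : 0 < f) (hd : (LinearMap.det F) ≠ 0) :
    (semMat φ b).det ≠ 0 ∧ ord (LinearMap.det F) = f * ord (semMat φ b).det := by
  have hdet : LinearMap.det F = (itMat φ b f).det := by
    rw [← LinearMap.det_toMatrix b, toMatrix_eq_itMat φ b f F hF]
  have h0 : (semMat φ b).det ≠ 0 := by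
    intro h
    obtain ⟨m, rfl⟩ : ∃ m, f = m + 1 := ⟨f - 1, by omega⟩
    rw [hdet, det_itMat_succ, h, zero_mul] at hd
    exact hd rfl
  refine ⟨h0, ?_⟩
  rw [hdet]
  have key : ∀ m : ℕ, (itMat φ b m).det ≠ 0 ∧ ord (itMat φ b m).det = m * ord (semMat φ b).det := by
    intro m
    induction m with
    | zero => simp [itMat_zero, ho.one]
    | succ m ih =>
      have h1 : σ (itMat φ b m).det ≠ 0 := by
        rw [Ne, map_eq_zero]
        exact ih.1
      rw [det_itMat_succ]
      refine ⟨mul_ne_zero h0 h1, ?_⟩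
      rw [ho.mul _ _ h0 h1, hoσ, ih.2]
      push_cast
      ring
  exact (key f).2

omit [Module K V] [AddCommGroup V] in
theorem charpoly_conj_aux {n : ℕ} (M S : Matrix (Fin n) (Fin n) K) (h0 : S.det ≠ 0) (τ : K →+* K)
    (hcomm : M * S = S * M.map τ) : M.charpoly.map τ = M.charpoly := by
  have hu : IsUnit S.det := isUnit_iff_ne_zero.mpr h0
  have h1 : M.map τ = S⁻¹ * (M * S) := by
    rw [hcomm, ← mul_assoc, Matrix.nonsing_inv_mul _ hu, one_mul]
  have h2 : M.charpoly.map τ = (M.map τ).charpoly := (Matrix.charpoly_map M τ).symm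
  have h3 : (S⁻¹ * (M * S)).charpoly = M.charpoly := by
    rw [Matrix.charpoly_mul_comm, mul_assoc, Matrix.mul_nonsing_inv _ hu, mul_one]
  rw [h2, h1, h3]

include hF ho hoσ in
theorem charpoly_map_sigma' (hf : 0 < f) (hd : (LinearMap.det F) ≠ 0) :
    (LinearMap.toMatrix b b F).charpoly.map σ = (LinearMap.toMatrix b b F).charpoly :=
  charpoly_conj_aux _ _ (ord_det φ b f F hF ho hoσ hf hd).1 σ (mat_comm φ b f F hF)

include hF ho hoσ in
theorem charpoly_map_sigma [FiniteDimensional K V] (hf : 0 < f) (hd : (LinearMap.det F) ≠ 0) :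
    F.charpoly.map σ = F.charpoly := by
  rw [← LinearMap.charpoly_toMatrix F (Module.finBasis K V)]
  exact charpoly_map_sigma' φ (Module.finBasis K V) f F hF ho hoσ hf hd

theorem aeval_semi (F : V →ₗ[K] V) (hcomm : ∀ x, F (φ x) = φ (F x)) (B : K[X]) (x : V) :
    φ (aeval F B x) = aeval F (B.map σ) (φ x) := by
  induction B using Polynomial.induction_on' with
  | add p q hp hq => simp [map_add, Polynomial.map_add, hp, hq]
  | monomial m a =>
    rw [Polynomial.map_monomial]
    simp only [aeval_monomial, Module.End.mul_apply, Module.algebraMap_end_apply, map_smulₛₗ]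
    congr 1
    induction m with
    | zero => simp
    | succ m ih =>
      rw [pow_succ', Module.End.mul_apply, Module.End.mul_apply, ← ih, hcomm]

theorem ker_semi_stable (F : V →ₗ[K] V) (hcomm : ∀ x, F (φ x) = φ (F x)) (B : K[X])
    (hB : B.map σ = B) (x : V) (hx : x ∈ LinearMap.ker (aeval F B)) :
    φ x ∈ LinearMap.ker (aeval F B) := by
  rw [LinearMap.mem_ker] at hx ⊢
  rw [← hB, ← aeval_semi φ F hcomm, hx, map_zero]

end semi

section splitsigma

variable {K : Type*} [Field K] (σ : K →+* K) (hσ : Function.Surjective σ)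
  {ord : K → ℤ} (hoσ : ∀ x, ord (σ x) = ord x) (f : ℕ)

include hσ in
theorem exists_map_eq (π : K[X]) : ∃ ρ : K[X], ρ.map σ = π :=
  Polynomial.map_surjective σ hσ π

include hσ hoσ in
theorem split_map_eq {G A B : K[X]} (hG : G.map σ = G) (hA : A.Monic) (hB : B.Monic)
    (hAB : G = A * B) (hNo : NoBig ord f A) (hAll : AllBig ord f B) : B.map σ = B := by
  let s : K ≃+* K := RingEquiv.ofBijective σ ⟨σ.injective, hσ⟩
  let e : K[X] ≃+* K[X] := Polynomial.mapEquiv s
  have he : ∀ p : K[X], e p = p.map σ := by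
    intro p
    rfl
  have hdelta : ∀ p : K[X], delta ord f (p.map σ) = delta ord f p := by
    intro p
    unfold delta
    rw [natDegree_map, coeff_map, hoσ]
  have hmonic : ∀ p : K[X], (p.map σ).Monic → p.Monic := by
    intro p hp
    exact Polynomial.monic_of_injective σ.injective hp
  have hirr : ∀ p : K[X], Irreducible (p.map σ) → Irreducible p := by
    intro p hp
    rw [← he] at hp
    exact (MulEquiv.irreducible_iff e).mp hp
  have hdvd : ∀ p q : K[X], p.map σ ∣ q.map σ → p ∣ q := by
    intro p q h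
    rw [← he, ← he] at h
    exact (map_dvd_iff e).mp h
  apply split_unique (ord := ord) f (hA.map σ) (hB.map σ) hA hB
  · intro π hm hi hd
    obtain ⟨ρ, rfl⟩ := exists_map_eq σ hσ π
    rw [hdelta]
    exact hNo ρ (hmonic _ hm) (hirr _ hi) (hdvd _ _ hd)
  · intro π hm hi hd
    obtain ⟨ρ, rfl⟩ := exists_map_eq σ hσ π
    rw [hdelta]
    exact hAll ρ (hmonic _ hm) (hirr _ hi) (hdvd _ _ hd)
  · exact hNo
  · exact hAll
  · rw [← Polynomial.map_mul, ← hAB, hG]

end splitsigma

end Pool.Agent.WM85
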