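import Pool.Agent.LibWM85.Semi

namespace Pool.Agent.WM85

open Polynomial Module

section slope

variable {K V : Type*} [Field K] [AddCommGroup V] [Module K V] [FiniteDimensional K V]
  {σ : K →+* K} (φ : V →ₛₗ[σ] V) (f : ℕ) (F : V →ₗ[K] V) (hF : ∀ x, F x = φ^[f] x)
  (hσ : Function.Surjective σ) {ord : K → ℤ} (ho : OrdHyp ord) (hoσ : ∀ x, ord (σ x) = ord x)

include ho in
theorem ord_neg_one : ord (-1) = 0 := by
  have h := ho.mul (-1) (-1) (neg_ne_zero.mpr one_ne_zero) (neg_ne_zero.mpr one_ne_zero)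
  rw [neg_mul_neg, one_mul, ho.one] at h
  omega

include ho in
theorem ord_neg_one_pow (k : ℕ) (x : K) (hx : x ≠ 0) : ord ((-1) ^ k * x) = ord x := by
  have h1 : ((-1 : K)) ≠ 0 := neg_ne_zero.mpr one_ne_zero
  induction k with
  | zero => simp
  | succ k ih =>
    rw [pow_succ', mul_assoc, ho.mul _ _ h1 (mul_ne_zero (pow_ne_zero _ h1) hx), ih,
      ord_neg_one ho]
    simp

include hF in
omit [FiniteDimensional K V] in
theorem restrict_iterate (S : Submodule K V) (hS : ∀ x ∈ S, φ x ∈ S) (hS' : ∀ x ∈ S, F x ∈ S)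
    (x : S) : (F.restrict hS') x = (φ.restrict hS)^[f] x := by
  apply Subtype.ext
  rw [LinearMap.coe_restrict_apply, hF]
  clear hF hS'
  induction f with
  | zero => rfl
  | succ m ih =>
    rw [Function.iterate_succ_apply', Function.iterate_succ_apply', LinearMap.coe_restrict_apply,
      ih]

theorem det_ne_zero_of_inj {W : Type*} [AddCommGroup W] [Module K W] [FiniteDimensional K W]
    (G : W →ₗ[K] W) (h : Function.Injective G) : LinearMap.det G ≠ 0 := by
  intro h0
  have h1 := LinearMap.bot_lt_ker_of_det_eq_zero h0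
  rw [LinearMap.ker_eq_bot.mpr h] at h1
  exact lt_irrefl _ h1

include hF ho hoσ in
theorem slope_aux (hf : 0 < f) (hinj : Function.Injective F) (B : K[X])
    (S : Submodule K V) (hS : ∀ x ∈ S, φ x ∈ S) (hSF : ∀ x ∈ S, F x ∈ S)
    (hch : (F.restrict hSF).charpoly = B) (d : ℕ) (u : Basis (Fin d) K S) :
    (semMat (φ.restrict hS) u).det ≠ 0 ∧
      delta ord f B = f * (d - ord (semMat (φ.restrict hS) u).det) := by
  set FS : S →ₗ[K] S := F.restrict hSF with hFS
  have hFSit : ∀ x, FS x = (φ.restrict hS)^[f] x :=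
    fun x => restrict_iterate φ f F hF S hS hSF x
  have hinjS : Function.Injective FS := by
    intro x y hxy
    apply Subtype.ext
    apply hinj
    have := congrArg Subtype.val hxy
    exact this
  have hdetS : LinearMap.det FS ≠ 0 := det_ne_zero_of_inj FS hinjS
  obtain ⟨h1, h2⟩ := ord_det (φ.restrict hS) u f FS hFSit ho hoσ hf hdetS
  refine ⟨h1, ?_⟩
  have hd : B.natDegree = d := by
    rw [← hch, LinearMap.charpoly_natDegree, Module.finrank_eq_card_basis u, Fintype.card_fin]
  have h3 := LinearMap.det_eq_sign_charpoly_coeff FS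
  rw [hch] at h3
  have hB0 : B.coeff 0 ≠ 0 := by
    intro h
    rw [h, mul_zero] at h3
    exact hdetS h3
  have h4 : ord (LinearMap.det FS) = ord (B.coeff 0) := by
    rw [h3]
    exact ord_neg_one_pow ho _ _ hB0
  unfold delta
  rw [← h4, h2, hd]
  ring

include hF hσ ho hoσ in
theorem slope_data (hf : 0 < f) (hinj : Function.Injective F) (A B : K[X]) (hA : A.Monic)
    (hB : B.Monic) (hAB : F.charpoly = A * B) (hNo : NoBig ord f A) (hAll : AllBig ord f B) :
    ∃ (S : Submodule K V) (hS : ∀ x ∈ S, φ x ∈ S), Module.finrank K S = B.natDegree ∧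
      ∀ (d : ℕ) (u : Basis (Fin d) K S),
        (semMat (φ.restrict hS) u).det ≠ 0 ∧
        delta ord f B = f * (d - ord (semMat (φ.restrict hS) u).det) := by
  have hdet : LinearMap.det F ≠ 0 := det_ne_zero_of_inj F hinj
  have hmap := charpoly_map_sigma φ f F hF ho hoσ hf hdet
  have hBσ := split_map_eq σ hσ hoσ f hmap hA hB hAB hNo hAll
  have hcomm := F_comm φ f F hF
  have hSF := ker_aeval_stable F B
  have hch := charOn_ker F A B hA hB (coprime_of_split f hA hNo hAll) hAB
  rw [charOn_eq F hSF] at hch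
  refine ⟨LinearMap.ker (aeval F B), ker_semi_stable φ F hcomm B hBσ, ?_, ?_⟩
  · have h1 := LinearMap.charpoly_natDegree (LinearMap.restrict F hSF)
    rw [hch] at h1
    exact h1.symm
  · intro d u
    exact slope_aux φ f F hF ho hoσ hf hinj B _ _ hSF hch d u

end slope

end Pool.Agent.WM85
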