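import Pool.Agent.LibWM85.Kron

namespace Pool.Agent.WM85

open Polynomial

theorem prod_ge (m : Multiset ℝ) (a : ℝ) (ha : 0 ≤ a) (h : ∀ x ∈ m, a ≤ x) :
    a ^ Multiset.card m ≤ m.prod := by
  induction m using Multiset.induction_on with
  | empty => simp
  | cons x m ih =>
    rw [Multiset.card_cons, pow_succ', Multiset.prod_cons]
    have h1 := ih (fun y hy => h y (Multiset.mem_cons_of_mem hy))
    have h2 := h x (Multiset.mem_cons_self x m)
    exact mul_le_mul h2 h1 (pow_nonneg ha _) (ha.trans h2)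

theorem prod_gt (m : Multiset ℝ) (a : ℝ) (ha : 0 < a) (h : ∀ x ∈ m, a ≤ x) (y : ℝ) (hy : y ∈ m)
    (hay : a < y) : a ^ Multiset.card m < m.prod := by
  obtain ⟨m', rfl⟩ := Multiset.exists_cons_of_mem hy
  rw [Multiset.card_cons, pow_succ', Multiset.prod_cons]
  have h1 := prod_ge m' a ha.le (fun x hx => h x (Multiset.mem_cons_of_mem hx))
  have h2 : 0 < a ^ Multiset.card m' := pow_pos ha _
  exact mul_lt_mul hay h1 h2 (ha.trans hay).le

theorem prod_le (m : Multiset ℝ) (b : ℝ) (h0 : ∀ x ∈ m, 0 ≤ x) (h : ∀ x ∈ m, x ≤ b) :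
    m.prod ≤ b ^ Multiset.card m := by
  induction m using Multiset.induction_on with
  | empty => simp
  | cons x m ih =>
    rw [Multiset.card_cons, pow_succ', Multiset.prod_cons]
    have h1 := ih (fun y hy => h0 y (Multiset.mem_cons_of_mem hy))
      (fun y hy => h y (Multiset.mem_cons_of_mem hy))
    have h2 := h x (Multiset.mem_cons_self x m)
    have h3 := h0 x (Multiset.mem_cons_self x m)
    have h4 : 0 ≤ m.prod := Multiset.prod_nonneg (fun y hy => h0 y (Multiset.mem_cons_of_mem hy))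
    exact mul_le_mul h2 h1 h4 (h3.trans h2)

/-- the constant coefficient of an integral polynomial whose complex roots have `|z|^2 = B` -/
theorem coeff_zero_sq (Q : ℤ[X]) (hQ : Q.Monic) (B : ℝ)
    (hc : ∀ z : ℂ, aeval z Q = 0 → ‖z‖ ^ 2 = B) :
    ((Q.coeff 0 : ℤ) : ℝ) ^ 2 = B ^ Q.natDegree := by
  set QC : ℂ[X] := Q.map (algebraMap ℤ ℂ) with hQC
  have hm : QC.Monic := hQ.map _
  have hsp : QC.Splits := IsAlgClosed.splits _
  have h1 := hsp.coeff_zero_eq_prod_roots_of_monic hm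
  have hd : QC.natDegree = Q.natDegree := hQ.natDegree_map _
  have hcard : Multiset.card QC.roots = Q.natDegree := by
    rw [← hd]
    exact (splits_iff_card_roots.mp hsp)
  have h2 : ‖QC.coeff 0‖ = (QC.roots.map (fun z => ‖z‖)).prod := by
    rw [h1, norm_mul, norm_pow, norm_neg, norm_one, one_pow, one_mul]
    exact map_multiset_prod (NormedField.toMulRingNorm ℂ) QC.roots
  have h3 : ‖QC.coeff 0‖ ^ 2 = B ^ Q.natDegree := by
    rw [h2, ← Multiset.prod_map_pow, ← hcard]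
    have h4 : ∀ z ∈ QC.roots, ‖z‖ ^ 2 = B := by
      intro z hz
      apply hc
      have := (mem_roots'.mp hz).2
      rw [hQC, IsRoot.def, eval_map_algebraMap] at this
      exact this
    rw [Multiset.map_congr rfl h4, Multiset.map_const', Multiset.prod_replicate]
  rw [← h3, hQC, coeff_map]
  simp

section complete

variable {K L : Type*} [NontriviallyNormedField K] [CompleteSpace K] [IsUltrametricDist K]
  [CharZero K] [Field L] [Algebra K L] [Algebra.IsAlgebraic K L] [IsAlgClosed L]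

omit [CharZero K] in
theorem prod_norm (Q : ℤ[X]) (hQ : Q.Monic) :
    ∃ m : Multiset ℝ, Multiset.card m = Q.natDegree ∧ m.prod = ‖((Q.coeff 0 : ℤ) : K)‖ ∧
      (∀ x ∈ m, ∃ a : L, aeval a Q = 0 ∧ spectralNorm K L a = x) ∧
      ∀ a : L, aeval a Q = 0 → spectralNorm K L a ∈ m := by
  set QL : L[X] := Q.map (algebraMap ℤ L) with hQL
  have hm : QL.Monic := hQ.map _
  have hsp : QL.Splits := IsAlgClosed.splits _
  have h1 := hsp.coeff_zero_eq_prod_roots_of_monic hm
  have hd : QL.natDegree = Q.natDegree := hQ.natDegree_map _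
  have hcard : Multiset.card QL.roots = Q.natDegree := by
    rw [← hd]
    exact (splits_iff_card_roots.mp hsp)
  refine ⟨QL.roots.map (fun a => spectralNorm K L a), by rw [Multiset.card_map, hcard], ?_, ?_, ?_⟩
  · have h2 : spectralNorm K L (QL.coeff 0) = (QL.roots.map (fun a => spectralNorm K L a)).prod := by
      have h3 := map_multiset_prod (spectralMulAlgNorm K L) QL.roots
      have h4 : spectralNorm K L QL.roots.prod
          = (QL.roots.map (fun a => spectralNorm K L a)).prod := h3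
      rw [← h4, h1]
      rcases neg_one_pow_eq_or L QL.natDegree with h5 | h5
      · rw [h5, one_mul]
      · rw [h5, neg_one_mul]
        exact spectralNorm_neg (Algebra.IsAlgebraic.isAlgebraic _)
    rw [← h2, hQL, coeff_map]
    have h5 : algebraMap ℤ L (Q.coeff 0) = algebraMap K L ((Q.coeff 0 : ℤ) : K) := by
      simp
    rw [h5, spectralNorm_extends]
  · intro x hx
    obtain ⟨a, ha, rfl⟩ := Multiset.mem_map.mp hx
    refine ⟨a, ?_, rfl⟩
    have := (mem_roots'.mp ha).2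
    rw [hQL, IsRoot.def, eval_map_algebraMap] at this
    exact this
  · intro a ha
    apply Multiset.mem_map_of_mem (fun a => spectralNorm K L a)
    rw [mem_roots hm.ne_zero, IsRoot.def, hQL, eval_map_algebraMap]
    exact ha

/-- Weil numbers whose slopes lie in `[r, r + 1]`. -/
theorem weight_cases {p : ℕ} (hp : p.Prime) (hp0 : 0 < ‖(p : K)‖) (hp1 : ‖(p : K)‖ < 1)
    {f r : ℕ} (hf : 0 < f) (α : L) (hint : IsIntegral ℤ α) (w : ℕ)
    (hw : ∀ z : ℂ, aeval z (minpoly ℤ α) = 0 → ‖z‖ ^ 2 = (p : ℝ) ^ (f * w))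
    (hs : ∀ a : L, aeval a (minpoly ℤ α) = 0 →
      ‖(p : K)‖ ^ (f * (r + 1)) ≤ spectralNorm K L a ∧ spectralNorm K L a ≤ ‖(p : K)‖ ^ (f * r)) :
    w = 2 * r + 1 ∨ (w = 2 * r ∧ ∃ m : ℕ, 0 < m ∧ α ^ m = ((p : L) ^ (f * r)) ^ m) ∨
      (w = 2 * r + 2 ∧ ∃ m : ℕ, 0 < m ∧ α ^ m = ((p : L) ^ (f * (r + 1))) ^ m) := by
  have : CharZero L := charZero_of_injective_algebraMap (algebraMap K L).injective
  set ρ : ℝ := ‖(p : K)‖ with hρ
  set Q := minpoly ℤ α with hQ
  have hQm : Q.Monic := minpoly.monic hint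
  have hd : 0 < Q.natDegree := minpoly.natDegree_pos hint
  have hpR : (1 : ℝ) < p := by exact_mod_cast hp.one_lt
  have hpR0 : (0 : ℝ) < p := by linarith
  -- the constant coefficient
  have h1 := coeff_zero_sq Q hQm _ hw
  have h2 : (Q.coeff 0) ^ 2 = (p : ℤ) ^ (f * w * Q.natDegree) := by
    rw [← pow_mul] at h1
    exact_mod_cast h1
  have h3 : ‖((Q.coeff 0 : ℤ) : K)‖ ^ 2 = ρ ^ (f * w * Q.natDegree) := by
    rw [← norm_pow]
    have := congrArg (fun x : ℤ => ‖(x : K)‖) h2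
    push_cast at this
    rw [this, norm_pow]
  obtain ⟨m, hm1, hm2, hm3, hm4⟩ := prod_norm (K := K) (L := L) Q hQm
  have hpos : ∀ x ∈ m, 0 ≤ x := by
    intro x hx
    obtain ⟨a, _, rfl⟩ := hm3 x hx
    exact spectralNorm_nonneg a
  have hlow : ∀ x ∈ m, ρ ^ (f * (r + 1)) ≤ x := by
    intro x hx
    obtain ⟨a, ha, rfl⟩ := hm3 x hx
    exact (hs a ha).1
  have hup : ∀ x ∈ m, x ≤ ρ ^ (f * r) := by
    intro x hx
    obtain ⟨a, ha, rfl⟩ := hm3 x hx
    exact (hs a ha).2
  have h4 := prod_ge m _ (pow_nonneg hp0.le _) hlow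
  have h5 := prod_le m _ hpos hup
  rw [hm1, hm2, ← pow_mul] at h4 h5
  have hn0 : 0 ≤ ‖((Q.coeff 0 : ℤ) : K)‖ := norm_nonneg _
  have h6 : ρ ^ (f * (r + 1) * Q.natDegree * 2) ≤ ρ ^ (f * w * Q.natDegree) := by
    rw [← h3, pow_mul]
    exact pow_le_pow_left₀ (pow_nonneg hp0.le _) h4 2
  have h7 : ρ ^ (f * w * Q.natDegree) ≤ ρ ^ (f * r * Q.natDegree * 2) := by
    rw [← h3, pow_mul _ _ 2]
    exact pow_le_pow_left₀ hn0 h5 2
  have h8 := (pow_le_pow_iff_right_of_lt_one₀ hp0 hp1).mp h6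
  have h9 := (pow_le_pow_iff_right_of_lt_one₀ hp0 hp1).mp h7
  have hfd : 0 < f * Q.natDegree := Nat.mul_pos hf hd
  have h10 : w ≤ 2 * (r + 1) := by
    by_contra hcon
    push Not at hcon
    have : f * Q.natDegree * (2 * (r + 1)) < f * Q.natDegree * w :=
      Nat.mul_lt_mul_of_pos_left hcon hfd
    nlinarith
  have h11 : 2 * r ≤ w := by
    by_contra hcon
    push Not at hcon
    have : f * Q.natDegree * w < f * Q.natDegree * (2 * r) :=
      Nat.mul_lt_mul_of_pos_left hcon hfd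
    nlinarith
  have habs : ∀ e : ℕ, w = 2 * e → ∀ z : ℂ, aeval z Q = 0 → ‖z‖ = (p : ℝ) ^ (f * e) := by
    intro e he z hz
    have h12 := hw z hz
    rw [he, show f * (2 * e) = f * e * 2 by ring, pow_mul _ _ 2] at h12
    exact (pow_left_inj₀ (norm_nonneg z) (pow_nonneg hpR0.le _) two_ne_zero).mp h12
  have hbig : ∀ e : ℕ, w = 2 * e → (∀ m : ℕ, 0 < m → α ^ m ≠ ((p : L) ^ (f * e)) ^ m) →
      ∃ a : L, aeval a Q = 0 ∧ ρ ^ (f * e) < spectralNorm K L a := by
    intro e he hnt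
    obtain ⟨a, ha1, ha2, ha3⟩ := exists_big_conj (K := K) hp hp0 hp1 (f * e) Q hQm
      (habs e he) α (minpoly.aeval ℤ α) hnt
    refine ⟨a, ?_, ha3⟩
    rw [hQ, ← ha2]
    exact minpoly.aeval ℤ a
  rcases (show w = 2 * r ∨ w = 2 * r + 1 ∨ w = 2 * r + 2 by omega) with h | h | h
  · right; left
    refine ⟨h, ?_⟩
    by_contra hno
    push Not at hno
    obtain ⟨a, ha, ha'⟩ := hbig r h (fun m hm => hno m hm)
    exact absurd (hs a ha).2 (not_le.mpr ha')
  · left; exact h
  · right; right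
    refine ⟨h, ?_⟩
    by_contra hno
    push Not at hno
    obtain ⟨a, ha, ha'⟩ := hbig (r + 1) (by omega) (fun m hm => hno m hm)
    have h12 := prod_gt m _ (pow_pos hp0 _) hlow _ (hm4 a ha) ha'
    rw [hm1, hm2, ← pow_mul] at h12
    have h13 : ρ ^ (f * (r + 1) * Q.natDegree * 2) < ρ ^ (f * w * Q.natDegree) := by
      rw [← h3, pow_mul]
      exact pow_lt_pow_left₀ h12 (pow_nonneg hp0.le _) two_ne_zero
    rw [h] at h13
    have h14 := (pow_lt_pow_iff_right_of_lt_one₀ hp0 hp1).mp h13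
    nlinarith

end complete

end Pool.Agent.WM85
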